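import Mathlib
import Pool.Agent.Helper35.PI.St4

/-!
Definitions for project PI2 (MP_b2fa09_gt): the integral method for surfaces, `c^*(2)`.
Everything of project PI (`Pool/Agent/Helper35/PI`) may be used; all its statements are proved.
-/

namespace Helper35.PI2

open Helper35.PI
open scoped ContDiff Manifold Topology ENNReal BigOperators
open MeasureTheory Set Filter

section Local

variable {n N : ℕ}

/-- divergence of the field `X` along the immersion `f`: `g^ij ⟨∂_i X, ∂_j f⟩` -/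
noncomputable def dvc (f : EE n → EE N) (X : EE n → EE N) (x : EE n) : ℝ :=
  ∑ i, ∑ j, (gram f x)⁻¹ i j * inner ℝ (fderiv ℝ X x (ee i)) (dv1 f x j)

/-- the covector `S_k = g^lm ⟨A_kl, ∂_m H⟩` -/
noncomputable def scv (f : EE n → EE N) (x : EE n) (k : Fin n) : ℝ :=
  ∑ l, ∑ m, (gram f x)⁻¹ l m * inner ℝ (sff f x k l) (fderiv ℝ (mcv f) x (ee m))

/-- the covector `v_k = ∂_k (2(1+μ)|A|² - |H|²) - 4μ S_k` -/
noncomputable def vcv (μ : ℝ) (f : EE n → EE N) (x : EE n) (k : Fin n) : ℝ :=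
  fderiv ℝ (fun y => 2 * (1 + μ) * nsq f y - ‖mcv f y‖ ^ 2) x (ee k) - 4 * μ * scv f x k

/-- the tangential field `V = g^kl v_k ∂_l f` -/
noncomputable def vfd (μ : ℝ) (f : EE n → EE N) (x : EE n) : EE N :=
  ∑ k, ∑ l, ((gram f x)⁻¹ k l * vcv μ f x k) • dv1 f x l

/-- `Σ ⟨A_kl, A_km⟩⟨A_ml, H⟩` -/
noncomputable def AAH (A : Fin n → Fin n → EE N) : ℝ :=
  ∑ k, ∑ l, ∑ m, inner ℝ (A k l) (A k m) * zz A m l

/-- `v_k` in terms of the 2- and 3-jet -/
noncomputable def vk (μ : ℝ) (A : Fin n → Fin n → EE N) (T : Fin n → Fin n → Fin n → EE N)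
    (k : Fin n) : ℝ :=
  2 * (1 + μ) * gX A T k - gY A T k - 4 * μ * ∑ l, inner ℝ (A k l) (et T l)

/-- `|T|²` -/
noncomputable def tq (T : Fin n → Fin n → Fin n → EE N) : ℝ := ∑ i, ∑ j, ∑ k, ‖T i j k‖ ^ 2

/-- `Σ |∇_k H|²` -/
noncomputable def eq2 (T : Fin n → Fin n → Fin n → EE N) : ℝ := ∑ k, ‖et T k‖ ^ 2

/-- mean curvature vector of the graph as a function on space time -/
noncomputable def Hf (x₀ : EE N) (L : EE n →ₗᵢ[ℝ] EE N) (u : EE n × ℝ → EE N)
    (z : EE n × ℝ) : EE N := mcv (grf x₀ L u z.2) z.1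

/-- second fundamental form of the graph -/
noncomputable def Af (x₀ : EE N) (L : EE n →ₗᵢ[ℝ] EE N) (u : EE n × ℝ → EE N) (i j : Fin n)
    (z : EE n × ℝ) : EE N := sff (grf x₀ L u z.2) z.1 i j

/-- the covector `S` of the graph -/
noncomputable def Sf (x₀ : EE N) (L : EE n →ₗᵢ[ℝ] EE N) (u : EE n × ℝ → EE N) (k : Fin n)
    (z : EE n × ℝ) : ℝ := scv (grf x₀ L u z.2) z.1 k

/-- `u_ijt`, the time derivative of `∂_i∂_j u` -/
noncomputable def ut (u : EE n × ℝ → EE N) (z : EE n × ℝ) (i j : Fin n) : EE N :=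
  jt (fun z' => jgg u z' i j) z

end Local

section Flow

variable {N : ℕ} {M : Type} [TopologicalSpace M]

/-- `θ = 2|A|² - |H|²` -/
noncomputable def thF (n : ℕ) [ChartedSpace (EE n) M] (F : M → ℝ → EE N) (q : M) (t : ℝ) : ℝ :=
  2 * AA (n := n) F q t - ‖HH (n := n) F q t‖ ^ 2

/-- the field `V` on `M_t` -/
noncomputable def VF (n : ℕ) [ChartedSpace (EE n) M] (μ : ℝ) (F : M → ℝ → EE N) (t : ℝ)
    (q : M) : EE N := vfd μ (loc (n := n) F q t) (chartAt (EE n) q q)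

/-- the cut-off function `ψ = (1 - |F|²/R²)₊` -/
noncomputable def psR (R : ℝ) (F : M → ℝ → EE N) (q : M) (t : ℝ) : ℝ :=
  max 0 (1 - ‖F q t‖ ^ 2 / R ^ 2)

/-- the derivative in time of `ψ⁴ θ dμ`, divided by `dμ` -/
noncomputable def bE (n : ℕ) [ChartedSpace (EE n) M] (R : ℝ) (F : M → ℝ → EE N) (q : M)
    (t : ℝ) : ℝ :=
  -(8 / R ^ 2) * psR R F q t ^ 3 * inner ℝ (F q t) (HH (n := n) F q t) * thF n F q t
    + psR R F q t ^ 4 * deriv (fun s => thF n F q s) t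
    - ‖HH (n := n) F q t‖ ^ 2 * (psR R F q t ^ 4 * thF n F q t)

/-- real area integral over `M_t`, restricted to finitely many members of the partition of
unity -/
noncomputable def Ls (n : ℕ) [ChartedSpace (EE n) M] (F : M → ℝ → EE N) (c : ℕ → M)
    (χ : ℕ → M → ℝ) (s : Finset ℕ) (t : ℝ) (g : M → ℝ) : ℝ :=
  ∑ i ∈ s, ∫ y in (chartAt (EE n) (c i)).target,
    χ i ((chartAt (EE n) (c i)).symm y) * (g ((chartAt (EE n) (c i)).symm y) *
      sgm (loc (n := n) F (c i) t) y)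

end Flow

end Helper35.PI2
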