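import Mathlib
import Pool.Agent.Helper35.PI2.Defs

/-!
Module statements of project PI2 (MP_b2fa09_gt): `c^*(2) ≥ (15+√6)/24`.

For each `StX` the module proves `theorem hX : StX`, taking earlier statements (of this file or
of project PI) as hypotheses as listed. Complete proofs are in the docstrings.
Notation: `f_i = dv1 f x i`, `G = (gram f x)⁻¹`, `σ = sgm`, `y = |H|²`, `θ = 2|A|² - |H|²`.
-/

namespace Helper35.PI2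

open Helper35.PI
open scoped ContDiff Manifold Topology ENNReal BigOperators
open MeasureTheory Set Filter

/-! ### The graph at its centre -/

/-- NJ (hNR)(hG0)(hG1)(hG2)(hJA)(hJB as needed). Jets at `(0,t₀)` of the normal part of a field
`v` with values orthogonal to `L(ℝ^n)`.

Proof. Near `(0,t₀)` (G2) `f_k = L e_k + u_k`, `⟨v,f_k⟩ = ⟨v,u_k⟩` because `v ⟂ L`. So
`nv = v - Σ_kl G^kl ⟨v,u_k⟩ (L e_l + u_l)`. At `(0,t₀)`: `u_k = 0`, `G = 1`, `∂G = 0` (G0), hence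
`c_k := ⟨v,u_k⟩` vanishes there and `∂_m c_k = ⟨v, u_mk⟩`. This gives the value and the first
derivative. For `w ⟂ L`: `⟨w,nv⟩ = ⟨w,v⟩ - Σ G^kl c_k ⟨w,u_l⟩`, and `c_k`, `⟨w,u_l⟩` vanish at the
point, so `∂_i∂_j` of the last sum is `Σ_k (∂_i c_k ⟨w,u_jk⟩ + ∂_j c_k ⟨w,u_ik⟩)` and its first
derivatives (also in `t`) vanish. Smoothness: all functions are smooth (G0, SM). -/
def StNJ : Prop := ∀ (n N : ℕ) (x₀ : EE N) (L : EE n →ₗᵢ[ℝ] EE N) (u : EE n × ℝ → EE N)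
    (t₀ : ℝ), GraphSol x₀ L u t₀ → ∀ (v : EE n × ℝ → EE N), ContDiffAt ℝ ∞ v (0, t₀) →
    (∀ᶠ z in 𝓝 ((0 : EE n), t₀), ∀ w : EE n, (inner ℝ (v z) (L w) : ℝ) = 0) →
    ∀ nv : EE n × ℝ → EE N, nv = (fun z => nrm (grf x₀ L u z.2) z.1 (v z)) →
    ContDiffAt ℝ ∞ nv (0, t₀) ∧ nv (0, t₀) = v (0, t₀) ∧
    (∀ m, jg nv (0, t₀) m = jg v (0, t₀) m
      - ∑ a, (inner ℝ (v (0, t₀)) (jgg u (0, t₀) a m) : ℝ) • L (ee a)) ∧
    (∀ w : EE N, (∀ x : EE n, (inner ℝ w (L x) : ℝ) = 0) →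
      (inner ℝ w (jt nv (0, t₀)) : ℝ) = inner ℝ w (jt v (0, t₀)) ∧
      ∀ i j, (inner ℝ w (jgg nv (0, t₀) i j) : ℝ) = inner ℝ w (jgg v (0, t₀) i j)
        - ∑ a, ((inner ℝ (v (0, t₀)) (jgg u (0, t₀) a i) : ℝ) * inner ℝ w (jgg u (0, t₀) a j)
          + (inner ℝ (v (0, t₀)) (jgg u (0, t₀) a j) : ℝ) * inner ℝ w (jgg u (0, t₀) a i)))

/-- GH (hNJ)(hNR)(hSM)(hG0)(hG1)(hG2)(hJA)(hJB). Jets of `H` and `A_kl` of the graph.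

Proof. By G2, `dv2 = jgg u`, so `A_kl = nrm(u_kl)` and `H = Σ G^ij nrm(u_ij) = nrm(jt u)` near
`(0,t₀)` by linearity of `nrm` (NR) and the equation `pde`. Both `u_kl` and `jt u` are orthogonal
to `L(ℝ^n)` (G2 and `perp` differentiated in `t`). Apply NJ with `v = jgg u k l` and `v = jt u`:
`jt u (0,t₀) = Σ_i u_ii = Hv A` (G = 1); `jg (jt u) m = Σ_i T m i i = et T m` (differentiate `pde`,
`∂G = 0`, symmetry G1); `jgg (jt u) i j = jt (jgg u i j) = ut i j` (partial derivatives of the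
smooth function `u` commute near `(0,t₀)`); `jg (jgg u k l) m = jggg u m k l`. -/
def StGH : Prop := ∀ (n N : ℕ) (x₀ : EE N) (L : EE n →ₗᵢ[ℝ] EE N) (u : EE n × ℝ → EE N)
    (t₀ : ℝ), GraphSol x₀ L u t₀ →
    ∀ (A : Fin n → Fin n → EE N) (T : Fin n → Fin n → Fin n → EE N),
    A = jgg u (0, t₀) → T = jggg u (0, t₀) →
    ContDiffAt ℝ ∞ (Hf x₀ L u) (0, t₀) ∧ Hf x₀ L u (0, t₀) = Hv A ∧
    (∀ m, jg (Hf x₀ L u) (0, t₀) m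
      = et T m - ∑ a, (inner ℝ (Hv A) (A a m) : ℝ) • L (ee a)) ∧
    (∀ w : EE N, (∀ x : EE n, (inner ℝ w (L x) : ℝ) = 0) →
      ∀ i j, (inner ℝ w (jgg (Hf x₀ L u) (0, t₀) i j) : ℝ) = inner ℝ w (ut u (0, t₀) i j)
        - ∑ a, ((inner ℝ (Hv A) (A a i) : ℝ) * inner ℝ w (A a j)
          + (inner ℝ (Hv A) (A a j) : ℝ) * inner ℝ w (A a i))) ∧
    (∀ k l, ContDiffAt ℝ ∞ (Af x₀ L u k l) (0, t₀) ∧ Af x₀ L u k l (0, t₀) = A k l ∧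
      (∀ m, jg (Af x₀ L u k l) (0, t₀) m
        = T m k l - ∑ a, (inner ℝ (A k l) (A a m) : ℝ) • L (ee a)) ∧
      (∀ w : EE N, (∀ x : EE n, (inner ℝ w (L x) : ℝ) = 0) →
        (inner ℝ w (jt (Af x₀ L u k l) (0, t₀)) : ℝ) = inner ℝ w (ut u (0, t₀) k l)))

/-- GX (hGH)(hG0)(hG1)(hSM). Time derivative of `|A|²` of the graph at `(0,t₀)`.

Proof. `Xf = Σ G^ik G^jl ⟨A_ij, A_kl⟩` with `G` smooth, `G = 1` and `jt G = 0` at the point (G0), so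
`jt Xf = Σ_ij jt ⟨A_ij,A_ij⟩ = 2 Σ ⟨A_ij, jt A_ij⟩ = 2 Σ ⟨A_ij, ut i j⟩` by GH with `w = A_ij`
(`A_ij ⟂ L` by G1). -/
def StGX : Prop := ∀ (n N : ℕ) (x₀ : EE N) (L : EE n →ₗᵢ[ℝ] EE N) (u : EE n × ℝ → EE N)
    (t₀ : ℝ), GraphSol x₀ L u t₀ → ∀ A : Fin n → Fin n → EE N, A = jgg u (0, t₀) →
    jt (Xf x₀ L u) (0, t₀) = 2 * ∑ i, ∑ j, (inner ℝ (A i j) (ut u (0, t₀) i j) : ℝ)

/-- GS (hGH)(hG0)(hG1)(hSM)(hJB). The divergence of the covector `S` at the centre of the graph.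

Proof. For `z` near `(0,t₀)`: `fderiv (mcv (grf z.2)) z.1 (ee m) = jg Hf z m` (chain rule for the
slice of the smooth function `Hf`), so `Sf k = Σ_lm GIf l m ⟨Af k l, jg Hf m⟩`, smooth. At
`(0,t₀)`, `G = 1`, `∂G = 0`: value `Σ_l ⟨A_kl, et_l - Σ_a⟨H,A_al⟩L e_a⟩ = Σ_l ⟨A_kl, et_l⟩` (`A ⟂ L`).
Derivative: `Σ_k jg (Sf k) k = Σ_kl ⟨jg (Af k l) k, jg Hf l⟩ + Σ_kl ⟨A_kl, jgg Hf k l⟩`.
First sum, by GH (`T, et, A ⟂ L`, `L` isometry): `Σ_kl ⟨T k k l, et_l⟩ +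
Σ_kla ⟨A_kl,A_ak⟩⟨H,A_al⟩ = eq2 T + AAH A` (`Σ_k T k k l = et T l`, symmetry of `A`). Second sum, by
GH with `w = A_kl`: `Σ ⟨A_kl,ut k l⟩ - 2 AAH A` (rename indices, symmetry of `A`). -/
def StGS : Prop := ∀ (n N : ℕ) (x₀ : EE N) (L : EE n →ₗᵢ[ℝ] EE N) (u : EE n × ℝ → EE N)
    (t₀ : ℝ), GraphSol x₀ L u t₀ →
    ∀ (A : Fin n → Fin n → EE N) (T : Fin n → Fin n → Fin n → EE N),
    A = jgg u (0, t₀) → T = jggg u (0, t₀) →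
    (∀ k, ContDiffAt ℝ ∞ (Sf x₀ L u k) (0, t₀) ∧
      Sf x₀ L u k (0, t₀) = ∑ l, (inner ℝ (A k l) (et T l) : ℝ)) ∧
    ∑ k, jg (Sf x₀ L u k) (0, t₀) k
      = (∑ i, ∑ j, (inner ℝ (A i j) (ut u (0, t₀) i j) : ℝ)) + eq2 T - AAH A

/-- GV (hGX)(hGS)(hG0)(hG1)(hG2)(hG7)(hG8)(hSM)(hJA). The field `V` and the time derivative of
`θ = 2X - Y` at the centre of the graph.

Proof. Put `Φ = 2(1+μ) Xf - Yf`. For `x` near `0`, `vcv μ (grf t₀) x k = jg Φ (x,t₀) k - 4μ Sf k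
(x,t₀) =: v_k(x)` (slice derivatives) and `vfd μ (grf t₀) x = Σ_kl G^kl(x) v_k(x) (L e_l + u_l(x))`.
At `x = 0`: `G = 1`, `u_l = 0`, and `v_k(0) = vk μ A T k` by G7, G8, GS. Derivative at `0` in
direction `e_i`, paired with `dv1 = L e_j`, summed with `G = 1`: `dvc = Σ_i ⟨∂_i V, L e_i⟩ = Σ_i ∂_i v_i`
(`∂G = 0`, `⟨u_il, L e_i⟩ = 0`, `⟨L e_l, L e_i⟩ = δ_li`) `= Σ_i jgg Φ i i - 4μ Σ_i jg (Sf i) i`. Now with
`jt = jh + Σ jgg · i i` and GX, GS: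
`jt(2Xf - Yf) = 2(1+μ) jt Xf - jt Yf - 2μ jt Xf
 = 2(1+μ)(hX + Σ jgg Xf i i) - (hY + Σ jgg Yf i i) - 4μ (Σ_k jg (Sf k) k - eq2 T + AAH A)`. -/
def StGV : Prop := ∀ (n N : ℕ) (x₀ : EE N) (L : EE n →ₗᵢ[ℝ] EE N) (u : EE n × ℝ → EE N)
    (t₀ : ℝ), GraphSol x₀ L u t₀ →
    ∀ (A : Fin n → Fin n → EE N) (T : Fin n → Fin n → Fin n → EE N),
    A = jgg u (0, t₀) → T = jggg u (0, t₀) → ∀ μ : ℝ,
    vfd μ (grf x₀ L u t₀) 0 = ∑ k, vk μ A T k • L (ee k) ∧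
    jt (fun z => 2 * Xf x₀ L u z - Yf x₀ L u z) (0, t₀)
      = dvc (grf x₀ L u t₀) (vfd μ (grf x₀ L u t₀)) 0 + 2 * (1 + μ) * hX A T - hY A T
        + 4 * μ * eq2 T - 4 * μ * AAH A

/-! ### Invariance, smoothness, the field on `M_t` -/

/-- IS (hSM)(hFR)(hNR). Smoothness and tangency of the field.

Proof. SM for `(y,t) ↦ f y`: `gram⁻¹, sff, mcv, nsq` are smooth at `x`, hence so are `fderiv (mcv f)`,
`fderiv (2(1+μ)nsq f - ‖mcv f‖²)` and everything built from them; `y ↦ dv1 f y l` is smooth.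
`⟨vfd, f_k⟩ = Σ_jl G^jl v_j g_lk = v_k`. `mcv f x` is a combination of `nrm`'s, orthogonal to all
`f_l` (NR). -/
def StIS : Prop := ∀ (n N : ℕ) (f : EE n → EE N) (x : EE n), ContDiffAt ℝ ∞ f x → LI f x →
    ∀ μ : ℝ, (∀ k, ContDiffAt ℝ ∞ (fun y => scv f y k) x) ∧
    (∀ k, ContDiffAt ℝ ∞ (fun y => vcv μ f y k) x) ∧ ContDiffAt ℝ ∞ (vfd μ f) x ∧
    (∀ k, (inner ℝ (vfd μ f x) (dv1 f x k) : ℝ) = vcv μ f x k) ∧
    vfd μ f x ∈ Submodule.span ℝ (range fun i => dv1 f x i) ∧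
    (inner ℝ (mcv f x) (vfd μ f x) : ℝ) = 0

/-- IA (hI1)(hFR)(hNR)(hSM). Covariance of the covectors under reparametrisation.

Proof. Write `J_ka = ⟨e_a, Dφ e_k⟩` (at points near `x`; `h = f∘φ` near `x`, `LI` is open). Then
`h_k = Σ_a J_ka f_a(φ)`, `gram h = J (gram f∘φ) Jᵀ`, `det J ≠ 0` (LI h), `dv2 h k l =
Σ J_ka J_lb f_ab + (combination of the f_a)`, so `sff h k l = Σ_ab J_ka J_lb (sff f a b)(φ)` (the normal
projection only depends on the span: NR, and it kills the second term). `mcv h = mcv f∘φ` and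
`nsq h = nsq f∘φ` near `x` (I1 at every point near `x`), so `∂_m(mcv h) = Σ_c J_mc (∂_c mcv f)(φ)` and
the same for the scalar `2(1+μ)nsq - ‖mcv‖²`. Finally `Σ_lm (gram h)⁻¹_lm J_lb J_mc =
((gram f)⁻¹)_bc`, from `(gram h)⁻¹ = J⁻ᵀ (gram f)⁻¹ J⁻¹`. -/
def StIA : Prop := ∀ (n N : ℕ) (f h : EE n → EE N) (φ : EE n → EE n) (x : EE n),
    ContDiffAt ℝ ∞ f (φ x) → ContDiffAt ℝ ∞ φ x → h =ᶠ[𝓝 x] (fun y => f (φ y)) → LI h x →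
    ∀ (μ : ℝ) (k : Fin n),
      scv h x k = ∑ a, (inner ℝ (ee a) (fderiv ℝ φ x (ee k)) : ℝ) * scv f (φ x) a ∧
      vcv μ h x k = ∑ a, (inner ℝ (ee a) (fderiv ℝ φ x (ee k)) : ℝ) * vcv μ f (φ x) a

/-- IB (hIA)(hIS)(hI1)(hFR). The field and its divergence are invariant.

Proof. `vfd h x` and `vfd f (φ x)` both lie in the common tangent space (I1, IS) and have the same
inner product with `h_k = Σ_a J_ka f_a` (IS and IA), so they are equal. This holds at all points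
near `x` (LI is open, the hypotheses are open), so `vfd h = vfd f∘φ` near `x`, and for a field
`Y = X∘φ`: `Σ_ij (gram h)⁻¹_ij ⟨∂_iY, h_j⟩ = Σ (gram h)⁻¹_ij J_ia J_jb ⟨∂_aX, f_b⟩ =
Σ (gram f)⁻¹_ab ⟨∂_aX, f_b⟩` (as in `V6a`). -/
def StIB : Prop := ∀ (n N : ℕ) (f h : EE n → EE N) (φ : EE n → EE n) (x : EE n),
    ContDiffAt ℝ ∞ f (φ x) → ContDiffAt ℝ ∞ φ x → h =ᶠ[𝓝 x] (fun y => f (φ y)) → LI h x →
    ∀ μ : ℝ, vfd μ h x = vfd μ f (φ x) ∧ dvc h (vfd μ h) x = dvc f (vfd μ f) (φ x)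

/-- MA (hIS)(hIB)(hI2)(hI3). The field on `M_t`.

Proof. For `q` in the source of the chart at `p`, `loc F q' t` near `chart q' q'` is
`loc F p t ∘ (transition)`, so by IB `VF q' = vfd (loc F p t) (chart_p q')` for all `q'` in the source
of the chart at `p`; this is smooth in the chart (IS, I2), hence `VF` is `C¹`. With `p = q` this
formula near `q` gives the formula for `dvg`. Orthogonality and tangency: IS. -/
def StMA : Prop := ∀ (n N : ℕ) (M : Type) [TopologicalSpace M] [ChartedSpace (EE n) M]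
    [IsManifold (𝓡 n) ∞ M] (F : M → ℝ → EE N), IsMCF (n := n) F → ∀ (μ t : ℝ), t < 0 →
    ContMDiff (𝓡 n) 𝓘(ℝ, EE N) 1 (VF n μ F t) ∧
    (∀ q, (inner ℝ (HH (n := n) F q t) (VF n μ F t q) : ℝ) = 0) ∧
    (∀ q, VF n μ F t q ∈ TS (n := n) F q t) ∧
    (∀ q, dvg (n := n) F (VF n μ F t) q t
      = dvc (loc (n := n) F q t) (vfd μ (loc (n := n) F q t)) (chartAt (EE n) q q))

/-- MT (hNR)(hSM). Time derivatives at a fixed point of `M` and in graph coordinates agree.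

Proof. Differentiate the orthogonality relation in `t` at `(0,t₀)`: for all `v`,
`⟨jt f + D_y f (ψ_t), L v⟩ = 0`, `ψ_t = jt ψ (0,t₀)`. `jt f = mcv` is normal (NR), `L v` is tangent, so
`⟨D_y f ψ_t, L v⟩ = 0` for all `v`; `D_y f ψ_t` lies in the span `= range L`, so it is `0`, and
`ψ_t = 0` as the `f_i` are independent. Then `jt (Φ(ψ z, z.2)) = DΦ(ψ_t, 1) = jt Φ (y₀,t₀)`. -/
def StMT : Prop := ∀ (n N : ℕ) (f : EE n × ℝ → EE N) (y₀ : EE n) (t₀ : ℝ)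
    (L : EE n →ₗᵢ[ℝ] EE N) (ψ : EE n × ℝ → EE n), ContDiffAt ℝ ∞ f (y₀, t₀) →
    LI (fun y => f (y, t₀)) y₀ →
    LinearMap.range L.toLinearMap
      = Submodule.span ℝ (range fun i => dv1 (fun y => f (y, t₀)) y₀ i) →
    (∀ᶠ z in 𝓝 (y₀, t₀), jt f z = mcv (fun y => f (y, z.2)) z.1) →
    ContDiffAt ℝ ∞ ψ (0, t₀) → ψ (0, t₀) = y₀ →
    (∀ᶠ z in 𝓝 ((0 : EE n), t₀), ∀ v : EE n,
        (inner ℝ (f (ψ z, z.2) - f (y₀, t₀) - L z.1) (L v) : ℝ) = 0) →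
    jt ψ (0, t₀) = 0 ∧ ∀ Φ : EE n × ℝ → ℝ, ContDiffAt ℝ 1 Φ (y₀, t₀) →
      jt (fun z => Φ (ψ z, z.2)) (0, t₀) = jt Φ (y₀, t₀)

/-- MG (hGV)(hMA)(hMT)(hIB)(hC1)(hC2)(hC3)(hSM)(hI2)(hI3)(hG1)(hG7)(hG8). The evolution of `θ` on
the flow, in divergence form.

Proof. `f(y,s) = F (symm y) s` in the chart at `q`, `y₀ = chart q`; smooth (I2), `LI`, `jt f = mcv`
(flow, I3). `L` from C1, `ψ` from C2, `u := f(ψ z,z.2) - f(y₀,t) - L z.1` is a GraphSol by C3, with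
`mcv, nsq` of the graph equal to those of `f(·,z.2)` at `ψ z`. `A = jgg u (0,t)`, `T = jggg u (0,t)`
(symmetries G1). `Φ(y,s) = 2 nsq (f(·,s)) y - ‖mcv (f(·,s)) y‖²` is smooth (SM), `thF q s = Φ(y₀,s)`,
so the derivative of `thF q` at `t` is `jt Φ (y₀,t) = jt (2Xf - Yf) (0,t)` (MT, C3), which GV computes.
`grf t = f(·,t)∘ψ(·,t)` near `0`, so IB (with `φ = ψ(·,t)`, `x = 0`) and MA turn `dvc (grf t)(vfd ..) 0`
into `dvg F (VF) q t` and `vfd μ (grf t) 0` into `VF q`; its norm squared is `Σ vk²` (`L` isometry,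
`L(ee k)` orthonormal). Values: G7, G8 at `(0,t)`. -/
def StMG : Prop := ∀ (n N : ℕ) (M : Type) [TopologicalSpace M] [ChartedSpace (EE n) M]
    [IsManifold (𝓡 n) ∞ M] (F : M → ℝ → EE N), IsMCF (n := n) F → ∀ (q : M) (t μ : ℝ), t < 0 →
    ∃ (A : Fin n → Fin n → EE N) (T : Fin n → Fin n → Fin n → EE N), SymV A ∧ Sym3V T ∧
      AA (n := n) F q t = XX A ∧ ‖HH (n := n) F q t‖ ^ 2 = YY A ∧
      ‖VF n μ F t q‖ ^ 2 = ∑ k, vk μ A T k ^ 2 ∧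
      HasDerivAt (fun s => thF n F q s)
        (dvg (n := n) F (VF n μ F t) q t + 2 * (1 + μ) * hX A T - hY A T + 4 * μ * eq2 T
          - 4 * μ * AAH A) t

/-! ### Pointwise algebra for surfaces -/

/-- PE. Polynomial identity for `n = 2`.

Proof. Expand with `Fin.sum_univ_two`, `A 1 0 = A 0 1`, and write everything in the six inner
products of `A 0 0, A 0 1, A 1 1`; `ring`. (Checked numerically.) -/
def StPE : Prop := ∀ (N : ℕ) (A : Fin 2 → Fin 2 → EE N) (μ : ℝ), SymV A → ∀ P Q H : EE N,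
    P = A 0 0 - A 1 1 → Q = (2 : ℝ) • A 0 1 → H = Hv A → ∀ θ y : ℝ,
    θ = 2 * XX A - YY A → y = YY A →
    θ = ‖P‖ ^ 2 + ‖Q‖ ^ 2 ∧
    4 * (1 + μ) * Sq A - 2 * ZZ A - 4 * μ * AAH A - y * θ
      = (inner ℝ P H : ℝ) ^ 2 + (inner ℝ Q H : ℝ) ^ 2 - (1 + μ) * ((y - 3 / 2 * θ) * θ
        + 1 / 2 * ((‖P‖ ^ 2 - ‖Q‖ ^ 2) ^ 2 + 4 * (inner ℝ P Q : ℝ) ^ 2))

/-- PR (hPE). The reaction inequality below `(15+√6)/24`.

Proof. Let `κ = √((|P|²-|Q|²)² + 4⟨P,Q⟩²) ∈ [0,θ]` (Cauchy-Schwarz), `α = ⟨P,H⟩`, `β = ⟨Q,H⟩`. Then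
`α²+β² ≤ y(θ+κ)/2`: with `W = αP+βQ`, `(α²+β²)² = ⟨W,H⟩² ≤ y|W|²` and `|W|² = α²|P|²+2αβ⟨P,Q⟩+β²|Q|² ≤
(α²+β²)(θ+κ)/2` (largest eigenvalue of the Gram matrix of `P, Q`). WLOG `c₀ ≥ 5/8` (`YY ≥ 0`). Let
`g₀ = 2c₀-1 ∈ [1/4, (3+√6)/12)`, so `48g₀²-24g₀+1 < 0`, and `θ ≤ g₀ y`. At `μ = 1` the reaction is at
most `y(θ+κ)/2 - 2yθ + 3θ² - κ²`. With `κ = χθ`, `0 ≤ χ ≤ 1`, `3θ²-κ² = (3-χ²)θ² ≤ (3-χ²)g₀ yθ`, so it
is at most `yθ(-3/2 + χ/2 + (3-χ²)g₀) ≤ yθ(-3/2 + 3g₀ + 1/(16g₀)) =: -2δ yθ`, `δ > 0`. For `μ < 1` add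
`(1-μ)((y-3θ/2)θ + κ²/2) ≤ (1-μ) yθ` (`κ² ≤ θ²`), so `μ₀ = 1 - min(δ,1/2)` works. -/
def StPR : Prop := ∀ c₀ : ℝ, c₀ < (15 + Real.sqrt 6) / 24 → ∃ μ₀ δ : ℝ, 0 < μ₀ ∧ μ₀ < 1 ∧
    0 < δ ∧ ∀ (N : ℕ) (A : Fin 2 → Fin 2 → EE N), SymV A → XX A ≤ c₀ * YY A →
      ∀ μ : ℝ, μ₀ ≤ μ → μ ≤ 1 →
      4 * (1 + μ) * Sq A - 2 * ZZ A - 4 * μ * AAH A - YY A * (2 * XX A - YY A)
        ≤ -δ * (YY A * (2 * XX A - YY A))

/-- PV. Bound for the field.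

Proof. With `B_ij = A_ij - δ_ij H/2` (`Σ|B|² = XX - YY/2`): `vk k = 4(1+μ) Σ_ij ⟨B_ij, T_ijk⟩ -
4μ Σ_l ⟨B_kl, et_l⟩` (the `H` terms cancel: `2(1+μ) - 2 - 2μ = 0`). Cauchy-Schwarz:
`Σ_k (Σ_ij ⟨B,T_ijk⟩)² ≤ |B|²|T|²`, `Σ_k (Σ_l ⟨B_kl,et_l⟩)² ≤ |B|² eq2 T ≤ 2|B|²|T|²`
(`|T_00k + T_11k|² ≤ 2(..)`). Total `≤ 2(64+32)|B|²|T|² ≤ 200 (2XX-YY)|T|²`. -/
def StPV : Prop := ∀ (N : ℕ) (A : Fin 2 → Fin 2 → EE N) (T : Fin 2 → Fin 2 → Fin 2 → EE N)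
    (μ : ℝ), SymV A → Sym3V T → 0 ≤ μ → μ ≤ 1 →
    ∑ k, vk μ A T k ^ 2 ≤ 200 * (2 * XX A - YY A) * tq T

/-- PW (hPE)(hPR)(hPV)(hT3). The pointwise package.

Proof. `μ = μ₀` from PR. `hX = -2 tq T + 2 Sq A`, `hY = -2 eq2 T + 2 ZZ A`. The left side is
`[-4(1+μ) tq + (2+4μ) eq2] + [4(1+μ)Sq - 2ZZ - 4μAAH - YY θ]`; T3 with `n = 2`: `eq2 ≤ (4/3) tq`, so the
first bracket is `≤ -(4/3)(1-μ) tq`; second bracket: PR. `θ ≥ 0`: PE. `θ ≤ YY`: `c₀ < 1`. -/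
def StPW : Prop := ∀ c₀ : ℝ, c₀ < (15 + Real.sqrt 6) / 24 → ∃ μ δ δ₁ C : ℝ, 0 < δ ∧ 0 < δ₁ ∧
    0 < C ∧ ∀ (N : ℕ) (A : Fin 2 → Fin 2 → EE N) (T : Fin 2 → Fin 2 → Fin 2 → EE N), SymV A →
      Sym3V T → XX A ≤ c₀ * YY A →
      0 ≤ 2 * XX A - YY A ∧ 2 * XX A - YY A ≤ YY A ∧
      2 * (1 + μ) * hX A T - hY A T + 4 * μ * eq2 T - 4 * μ * AAH A
          - YY A * (2 * XX A - YY A)
        ≤ -δ₁ * tq T - δ * (YY A * (2 * XX A - YY A)) ∧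
      ∑ k, vk μ A T k ^ 2 ≤ C * (2 * XX A - YY A) * tq T

/-! ### The local energy -/

/-- EB (hV1)(hSM)(hI2)(hI3)(hI4). Pointwise facts on `bE`.

Proof. As `V10` (Helper95.PI.hV10), with `v = 1 - ‖F‖²/R²`, `∂_t v = -2⟨F,H⟩/R²`, `(max 0 v)⁴` is `C¹`
with derivative `4 (max 0 v)³ ∂_t v`, `∂_t σ = -|H|²σ` (V1), and `thF (symm y) t = 2 nsq (loc F p t) y -
‖mcv (loc F p t) y‖²` (I3) is smooth in `(y,t)` (SM), so `deriv` is its time derivative, continuous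
in `(y,t)`. -/
def StEB : Prop := ∀ (n N : ℕ) (M : Type) [TopologicalSpace M] [ChartedSpace (EE n) M]
    [IsManifold (𝓡 n) ∞ M] (F : M → ℝ → EE N), IsMCF (n := n) F → ∀ R : ℝ, 0 < R →
    (∀ (q : M) (t : ℝ), t < 0 → R ≤ ‖F q t‖ → bE n R F q t = 0 ∧ psR R F q t = 0) ∧
    ContinuousOn (fun z : M × ℝ => thF n F z.1 z.2) (univ ×ˢ Iio 0) ∧
    ContinuousOn (fun z : M × ℝ => psR R F z.1 z.2) (univ ×ˢ Iio 0) ∧
    ∀ p : M,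
      (∀ y ∈ (chartAt (EE n) p).target, ∀ t < 0,
        HasDerivAt (fun r => psR R F ((chartAt (EE n) p).symm y) r ^ 4
            * thF n F ((chartAt (EE n) p).symm y) r * sgm (loc (n := n) F p r) y)
          (bE n R F ((chartAt (EE n) p).symm y) t * sgm (loc (n := n) F p t) y) t) ∧
      ContinuousOn (fun z : EE n × ℝ => bE n R F ((chartAt (EE n) p).symm z.1) z.2
        * sgm (loc (n := n) F p z.2) z.1) ((chartAt (EE n) p).target ×ˢ Iio 0) ∧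
      ContinuousOn (fun z : EE n × ℝ => sgm (loc (n := n) F p z.2) z.1)
        ((chartAt (EE n) p).target ×ˢ Iio 0)

/-- EQ (hI2)(hI3)(hNR)(hFR). Product rule for the cut-off field.

Proof. In the chart at `q`, `φ = psR⁴` is the `C¹` function `(max 0 v)⁴`, `v = 1 - ‖f‖²/R²`,
`∂_iφ = -(8/R²) ψ³ ⟨f, f_i⟩`. `dvg (φV) = φ dvg V + Σ_ij G^ij ∂_iφ ⟨V,f_j⟩`, and for `V` in the tangent
space `Σ_ij G^ij ⟨f,f_i⟩⟨V,f_j⟩ = ⟨f, V - nrm V⟩ = ⟨f,V⟩`. -/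
def StEQ : Prop := ∀ (n N : ℕ) (M : Type) [TopologicalSpace M] [ChartedSpace (EE n) M]
    [IsManifold (𝓡 n) ∞ M] (F : M → ℝ → EE N), IsMCF (n := n) F → ∀ (R t : ℝ), 0 < R →
    t < 0 → ∀ V : M → EE N, ContMDiff (𝓡 n) 𝓘(ℝ, EE N) 1 V →
    (∀ q, V q ∈ TS (n := n) F q t) →
    ContMDiff (𝓡 n) 𝓘(ℝ, EE N) 1 (fun q => psR R F q t ^ 4 • V q) ∧
    ∀ q, dvg (n := n) F (fun q => psR R F q t ^ 4 • V q) q t
      = psR R F q t ^ 4 * dvg (n := n) F V q t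
        - 8 / R ^ 2 * psR R F q t ^ 3 * (inner ℝ (F q t) (V q) : ℝ)

/-- EP (hMG)(hMA)(hEQ)(hPW). The pointwise energy inequality.

Proof. `μ, δ', δ₁, C'` from PW. At `(q,t)` take `A,T` from MG, `D` the derivative of `θ`, `V = VF μ F t`,
`y = |H|² = YY A`, `θ = thF = 2XX-YY ∈ [0,y]`, `τ = tq T`. PW: `D ≤ dvg V + yθ - δ₁τ - δ'yθ` and
`‖V‖² ≤ C'θτ`. With `ψ = psR`, if `ψ = 0` both sides are fine (`bE = 0`, EQ). If `ψ > 0` then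
`‖F‖ < R` and
`bE = -(8/R²)ψ³⟨F,H⟩θ + ψ⁴D - yψ⁴θ ≤ ψ⁴dvg V - δ₁ψ⁴τ - δ'ψ⁴yθ + (8/R)ψ³√y θ`,
`ψ⁴dvg V = dvg(ψ⁴V) + (8/R²)ψ³⟨F,V⟩ ≤ dvg(ψ⁴V) + (8/R)ψ³√(C'θτ) ≤ dvg(ψ⁴V) + δ₁ψ⁴τ + (16C'/(δ₁R²))ψ²θ`,
`(8/R)ψ³√yθ ≤ (δ'/2)ψ⁴yθ + (32/(δ'R²))ψ²θ`, and with `K = 16C'/δ₁+32/δ'`, `Kψ²θ/R² ≤ (δ'/4)ψ⁴θ² +
K²/(δ'R⁴) ≤ (δ'/4)ψ⁴yθ + K²/(δ'R⁴)`. So `δ = δ'/4`, `C = K²/δ'`. -/
def StEP : Prop := ∀ c₀ : ℝ, c₀ < (15 + Real.sqrt 6) / 24 → ∃ μ δ C : ℝ, 0 < δ ∧ 0 < C ∧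
    ∀ (N : ℕ) (M : Type) [TopologicalSpace M] [ChartedSpace (EE 2) M] [IsManifold (𝓡 2) ∞ M]
    (F : M → ℝ → EE N), IsMCF (n := 2) F →
    (∀ (p : M) (t : ℝ), t < 0 → AA (n := 2) F p t ≤ c₀ * ‖HH (n := 2) F p t‖ ^ 2) →
    (∀ (q : M) (t : ℝ), t < 0 →
      0 ≤ thF 2 F q t ∧ thF 2 F q t ≤ ‖HH (n := 2) F q t‖ ^ 2) ∧
    ∀ (R t : ℝ) (q : M), 0 < R → t < 0 →
      bE 2 R F q t ≤ dvg (n := 2) F (fun q => psR R F q t ^ 4 • VF 2 μ F t q) q t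
        + C / R ^ 4 * indicator {q : M | ‖F q t‖ ≤ R} (1 : M → ℝ) q
        - δ * (psR R F q t ^ 4 * (‖HH (n := 2) F q t‖ ^ 2 * thF 2 F q t))

/-- LL. Real and extended area integrals agree.

Proof. For `i ∉ s` the integrand of the `i`-th term of `Lam` is `0`. For `i ∈ s`, on the target
`ofReal χ * ofReal g * ofReal σ = ofReal (χ * (g * σ))` (all `≥ 0`), and
`ofReal_integral_eq_lintegral_ofReal` with integrability and nonnegativity; `tsum_eq_sum`;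
`ENNReal.ofReal_sum_of_nonneg`. -/
def StLL : Prop := ∀ (n N : ℕ) (M : Type) [TopologicalSpace M] [ChartedSpace (EE n) M]
    [IsManifold (𝓡 n) ∞ M] (F : M → ℝ → EE N) (c : ℕ → M) (χ : ℕ → M → ℝ), PU n c χ →
    ∀ (t : ℝ) (s : Finset ℕ) (g : M → ℝ), (∀ q, 0 ≤ g q) → (∀ i ∉ s, ∀ q, χ i q * g q = 0) →
    (∀ i ∈ s, IntegrableOn (fun y => χ i ((chartAt (EE n) (c i)).symm y) *
      (g ((chartAt (EE n) (c i)).symm y) * sgm (loc (n := n) F (c i) t) y))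
      (chartAt (EE n) (c i)).target) →
    Lam (n := n) F c χ t (fun q => ENNReal.ofReal (g q)) = ENNReal.ofReal (Ls n F c χ s t g) ∧
    0 ≤ Ls n F c χ s t g

/-- LT (hEB)(hI4). Integrability in the charts.

Proof. `χ_i∘symm` is continuous on the target with support in the compact set `chart (tsupport χ_i)`;
the other factor is continuous on the target (bounded measurable for the indicator of a closed
set). -/
def StLT : Prop := ∀ (n N : ℕ) (M : Type) [TopologicalSpace M] [ChartedSpace (EE n) M]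
    [IsManifold (𝓡 n) ∞ M] (F : M → ℝ → EE N), IsMCF (n := n) F → ∀ t : ℝ, t < 0 →
    ∀ (c : ℕ → M) (χ : ℕ → M → ℝ), PU n c χ → ∀ i : ℕ,
    (∀ g : M → ℝ, Continuous g →
      IntegrableOn (fun y => χ i ((chartAt (EE n) (c i)).symm y) *
        (g ((chartAt (EE n) (c i)).symm y) * sgm (loc (n := n) F (c i) t) y))
        (chartAt (EE n) (c i)).target) ∧
    (∀ E : Set M, IsClosed E →
      IntegrableOn (fun y => χ i ((chartAt (EE n) (c i)).symm y) *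
        (indicator E (1 : M → ℝ) ((chartAt (EE n) (c i)).symm y)
          * sgm (loc (n := n) F (c i) t) y))
        (chartAt (EE n) (c i)).target) ∧
    (∀ R : ℝ, 0 < R →
      IntegrableOn (fun y => χ i ((chartAt (EE n) (c i)).symm y) *
        (bE n R F ((chartAt (EE n) (c i)).symm y) t * sgm (loc (n := n) F (c i) t) y))
        (chartAt (EE n) (c i)).target)

/-- EI (hV6)(hLT)(hEB)(hI4). The total of `bE` at one time.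

Proof. `X` has compact support (closed subset of the compact set), so V6 gives
`Σ_{i∈s} ∫ χ_i (dvg X + ⟨H,X⟩) σ = 0` with integrable terms; `⟨H,X⟩ = 0`. Multiply the pointwise
inequality by `χ_i σ ≥ 0`, integrate over each target and sum over `i ∈ s` (integrability: LT; the
function `q ↦ ψ⁴|H|²θ` is continuous by EB, I4). -/
def StEI : Prop := ∀ (n N : ℕ) (M : Type) [TopologicalSpace M] [T2Space M]
    [ChartedSpace (EE n) M] [IsManifold (𝓡 n) ∞ M] (F : M → ℝ → EE N), IsMCF (n := n) F →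
    ∀ (t R C₁ δ : ℝ), t < 0 → 0 < R → IsCompact {q : M | ‖F q t‖ ≤ R} →
    ∀ (c : ℕ → M) (χ : ℕ → M → ℝ), PU n c χ → ∀ X : M → EE N,
    ContMDiff (𝓡 n) 𝓘(ℝ, EE N) 1 X → (∀ q, X q ≠ 0 → ‖F q t‖ ≤ R) →
    (∀ q, (inner ℝ (HH (n := n) F q t) (X q) : ℝ) = 0) →
    (∀ q, bE n R F q t ≤ dvg (n := n) F X q t
      + C₁ * indicator {q : M | ‖F q t‖ ≤ R} (1 : M → ℝ) q
      - δ * (psR R F q t ^ 4 * (‖HH (n := n) F q t‖ ^ 2 * thF n F q t))) →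
    ∀ s : Finset ℕ, (∀ i ∉ s, ∀ q, ‖F q t‖ ≤ R → χ i q = 0) →
    Ls n F c χ s t (fun q => bE n R F q t)
      ≤ C₁ * Ls n F c χ s t (indicator {q : M | ‖F q t‖ ≤ R} (1 : M → ℝ))
        - δ * Ls n F c χ s t
          (fun q => psR R F q t ^ 4 * (‖HH (n := n) F q t‖ ^ 2 * thF n F q t))

/-- AG (hV8). Quadratic (degree `n`) area growth, uniformly in time.

Proof. `gaussArea` with centre `0` and `lam = R²`: on the ball `exp(-‖x‖²/(4R²)) ≥ exp(-1/4)`, so the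
integral of the multiplicity over `closedBall 0 R` is at most `C (4πR²)^(n/2) e^(1/4)` (compare
`Helper43.PI.hDA2`), a constant times `R^n`. Then V8. -/
def StAG : Prop := ∀ (n N : ℕ) (M : Type) [TopologicalSpace M] [T2Space M]
    [ChartedSpace (EE n) M] [IsManifold (𝓡 n) ∞ M] (F : M → ℝ → EE N), IsMCF (n := n) F →
    (∀ t R : ℝ, t < 0 → IsCompact {q : M | ‖F q t‖ ≤ R}) →
    (∃ C : ℝ≥0∞, C ≠ ⊤ ∧ ∀ t < 0, ∀ x₀ : EE N, ∀ lam : ℝ, 0 < lam →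
      gaussArea n F t x₀ lam ≤ C) →
    ∃ CA : ℝ, 0 < CA ∧ ∀ (c : ℕ → M) (χ : ℕ → M → ℝ), PU n c χ → ∀ t R : ℝ, t < 0 → 0 < R →
      Lam (n := n) F c χ t (indicator {q : M | ‖F q t‖ ≤ R} 1) ≤ ENNReal.ofReal (CA * R ^ n)

/-- FU. Differentiation under the integral sign, compact support.

Proof. `χ b` is continuous on `T × [t₀,t₁]` and vanishes for `y ∉ K`; on the compact `K × [t₀,t₁]` it
is bounded by some `B`. Integrability: continuous on `T`, supported in `K`. Continuity in `r`: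
dominated convergence with bound `B 1_K`. Last part: for each `y ∈ T`, `a y t₁ - a y t₀ =
∫_{t₀}^{t₁} b y r dr` (FTC, `b y` continuous), multiply by `χ y`, integrate, Fubini (integrable on
`K × [t₀,t₁]`). -/
def StFU : Prop := ∀ (n : ℕ) (T K : Set (EE n)), IsOpen T → IsCompact K → K ⊆ T →
    ∀ χ : EE n → ℝ, ContinuousOn χ T → (∀ y ∈ T, y ∉ K → χ y = 0) →
    ∀ (t₀ t₁ : ℝ), t₀ ≤ t₁ → ∀ b : EE n → ℝ → ℝ,
    ContinuousOn (fun z : EE n × ℝ => b z.1 z.2) (T ×ˢ Icc t₀ t₁) →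
    (∀ r ∈ Icc t₀ t₁, IntegrableOn (fun y => χ y * b y r) T) ∧
    ContinuousOn (fun r => ∫ y in T, χ y * b y r) (Icc t₀ t₁) ∧
    ∀ a : EE n → ℝ → ℝ, (∀ y ∈ T, ∀ r ∈ Icc t₀ t₁, HasDerivAt (a y) (b y r) r) →
      ContinuousOn (fun z : EE n × ℝ => a z.1 z.2) (T ×ˢ Icc t₀ t₁) →
      (∫ y in T, χ y * a y t₁) - (∫ y in T, χ y * a y t₀)
        = ∫ r in t₀..t₁, ∫ y in T, χ y * b y r

/-- ET (hEI)(hLL)(hLT)(hFU)(hEB)(hI4). The energy inequality on a short time interval.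

Proof. RProper at `t₀` with radius `R`: compact `K`, `η > 0` (shrink: `t₀+η < 0`) with `‖F q s‖ ≤ R → q ∈ K`
for `s ∈ [t₀,t₀+η]`. `s` = finite set of `i` with `tsupport χ_i ∩ K ≠ ∅` (local finiteness). For
`r ∈ [t₀,t₀+η]` put `e(r) = Ls s r (ψ⁴θ)`, `d(r) = Ls s r (ψ⁴|H|²θ)`; by LL, LT they are the `Lam`'s
(`θ ≥ 0`, and `ψ = 0` off `K`). FU in each chart (`a = ψ⁴θσ`, `b = bE σ` from EB; `χ = χ_i∘symm`,
`K = chart (tsupport χ_i)`): `e(s₂) - e(s₁) = ∫_{s₁}^{s₂} Ls s r (bE) dr` with continuous integrand, and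
by EI and the area bound (LL for the indicator: `Ls s r (ind) ≤ a`), `Ls s r (bE) ≤ C₁a - δ d(r)`;
`d` is continuous (FU). Integrate: `e(s₂) + δ∫d ≤ e(s₁) + C₁a(s₂-s₁)`, and turn it into `ℝ≥0∞`
(`∫⁻ ofReal d = ofReal ∫ d`). -/
def StET : Prop := ∀ (n N : ℕ) (M : Type) [TopologicalSpace M] [T2Space M]
    [ChartedSpace (EE n) M] [IsManifold (𝓡 n) ∞ M] (F : M → ℝ → EE N), IsMCF (n := n) F →
    RProper F → (∀ t R : ℝ, t < 0 → IsCompact {q : M | ‖F q t‖ ≤ R}) →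
    ∀ (c : ℕ → M) (χ : ℕ → M → ℝ), PU n c χ → ∀ (R C₁ δ a : ℝ), 0 < R → 0 ≤ C₁ → 0 ≤ δ →
    0 ≤ a →
    (∀ t < 0, Lam (n := n) F c χ t (indicator {q : M | ‖F q t‖ ≤ R} 1) ≤ ENNReal.ofReal a) →
    (∀ (q : M) (t : ℝ), t < 0 → 0 ≤ thF n F q t) →
    (∀ t < 0, ∃ X : M → EE N, ContMDiff (𝓡 n) 𝓘(ℝ, EE N) 1 X ∧
      (∀ q, X q ≠ 0 → ‖F q t‖ ≤ R) ∧ (∀ q, (inner ℝ (HH (n := n) F q t) (X q) : ℝ) = 0) ∧
      (∀ q, bE n R F q t ≤ dvg (n := n) F X q t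
        + C₁ * indicator {q : M | ‖F q t‖ ≤ R} (1 : M → ℝ) q
        - δ * (psR R F q t ^ 4 * (‖HH (n := n) F q t‖ ^ 2 * thF n F q t)))) →
    ∀ t₀ < 0, ∃ η > 0, ∀ s₁ s₂ : ℝ, t₀ ≤ s₁ → s₁ ≤ s₂ → s₂ ≤ t₀ + η → s₂ < 0 →
      Lam (n := n) F c χ s₂ (fun q => ENNReal.ofReal (psR R F q s₂ ^ 4 * thF n F q s₂))
        + ENNReal.ofReal δ * ∫⁻ r in Icc s₁ s₂, Lam (n := n) F c χ r
          (fun q => ENNReal.ofReal
            (psR R F q r ^ 4 * (‖HH (n := n) F q r‖ ^ 2 * thF n F q r)))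
      ≤ Lam (n := n) F c χ s₁ (fun q => ENNReal.ofReal (psR R F q s₁ ^ 4 * thF n F q s₁))
        + ENNReal.ofReal (C₁ * a * (s₂ - s₁))

/-- LS (hEB)(hI2). Lower semicontinuity of area integrals in time.

Proof. For each `i` and `y` in the target the integrand is continuous in `t` (EB: `σ` continuous;
`g` continuous), measurable in `y` (continuous on the open target). Fatou (`lintegral_liminf_le'`) for
each `i`; then `tsum` of `liminf` is at most `liminf` of `tsum` (Fatou for the counting measure, or: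
for finite sums by superadditivity of liminf, then the supremum over finite sums). -/
def StLS : Prop := ∀ (n N : ℕ) (M : Type) [TopologicalSpace M] [ChartedSpace (EE n) M]
    [IsManifold (𝓡 n) ∞ M] (F : M → ℝ → EE N), IsMCF (n := n) F → ∀ (c : ℕ → M)
    (χ : ℕ → M → ℝ), PU n c χ → ∀ g : M → ℝ → ℝ,
    ContinuousOn (fun z : M × ℝ => g z.1 z.2) (univ ×ˢ Iio 0) → ∀ t < 0, ∀ u : ℕ → ℝ,
    Tendsto u atTop (𝓝 t) → (∀ k, u k < 0) →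
    Lam (n := n) F c χ t (fun q => ENNReal.ofReal (g q t))
      ≤ liminf (fun k => Lam (n := n) F c χ (u k) (fun q => ENNReal.ofReal (g q (u k)))) atTop

/-- CI. Continuous induction.

Proof. `P(s₁,r)`: `E r + ∫⁻_{Icc s₁ r} D ≤ E s₁ + ofReal(K(r-s₁))`. `P(s₁,r)` and `P(r,r')` give
`P(s₁,r')` (`∫⁻_{Icc s₁ r'} ≤ ∫⁻_{Icc s₁ r} + ∫⁻_{Icc r r'}`). Let `S` be the set of `s ∈ [s₁,s₂]` such that
`P(s₁,r)` for all `r ∈ [s₁,s]`; `s₁ ∈ S`. If `r ∈ S`, the local hypothesis at `r` extends `S` to the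
right. Closedness: let `r = sup S`, `u k ↑ r` strictly from below in `S`; then `E r ≤ liminf E(u k)`,
`∫⁻_{Icc s₁ r} D = ∫⁻_{Ico s₁ r} D = sup_k ∫⁻_{Icc s₁ (u k)} D` (`setLIntegral_iUnion_of_directed`, monotone
`u`), so `P(s₁,r)`. -/
def StCI : Prop := ∀ (E D : ℝ → ℝ≥0∞) (K : ℝ), 0 ≤ K →
    (∀ t₀ < 0, ∃ η > 0, ∀ s₁ s₂ : ℝ, t₀ ≤ s₁ → s₁ ≤ s₂ → s₂ ≤ t₀ + η → s₂ < 0 →
      E s₂ + ∫⁻ r in Icc s₁ s₂, D r ≤ E s₁ + ENNReal.ofReal (K * (s₂ - s₁))) →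
    (∀ t < 0, ∀ u : ℕ → ℝ, Tendsto u atTop (𝓝 t) → (∀ k, u k < t) →
      E t ≤ liminf (fun k => E (u k)) atTop) →
    ∀ s₁ s₂ : ℝ, s₁ ≤ s₂ → s₂ < 0 →
      E s₂ + ∫⁻ r in Icc s₁ s₂, D r ≤ E s₁ + ENNReal.ofReal (K * (s₂ - s₁))

/-- EG (hET)(hLS)(hCI)(hEB). The energy inequality for all times.

Proof. ET and LS (with `g = ψ⁴θ`, continuous by EB) are the hypotheses of CI with
`D = ofReal δ * Lam ..` (`lintegral_const_mul'`). -/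
def StEG : Prop := ∀ (n N : ℕ) (M : Type) [TopologicalSpace M] [T2Space M]
    [ChartedSpace (EE n) M] [IsManifold (𝓡 n) ∞ M] (F : M → ℝ → EE N), IsMCF (n := n) F →
    RProper F → (∀ t R : ℝ, t < 0 → IsCompact {q : M | ‖F q t‖ ≤ R}) →
    ∀ (c : ℕ → M) (χ : ℕ → M → ℝ), PU n c χ → ∀ (R C₁ δ a : ℝ), 0 < R → 0 ≤ C₁ → 0 ≤ δ →
    0 ≤ a →
    (∀ t < 0, Lam (n := n) F c χ t (indicator {q : M | ‖F q t‖ ≤ R} 1) ≤ ENNReal.ofReal a) →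
    (∀ (q : M) (t : ℝ), t < 0 → 0 ≤ thF n F q t) →
    (∀ t < 0, ∃ X : M → EE N, ContMDiff (𝓡 n) 𝓘(ℝ, EE N) 1 X ∧
      (∀ q, X q ≠ 0 → ‖F q t‖ ≤ R) ∧ (∀ q, (inner ℝ (HH (n := n) F q t) (X q) : ℝ) = 0) ∧
      (∀ q, bE n R F q t ≤ dvg (n := n) F X q t
        + C₁ * indicator {q : M | ‖F q t‖ ≤ R} (1 : M → ℝ) q
        - δ * (psR R F q t ^ 4 * (‖HH (n := n) F q t‖ ^ 2 * thF n F q t)))) →
    ∀ s₁ s₂ : ℝ, s₁ ≤ s₂ → s₂ < 0 →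
      Lam (n := n) F c χ s₂ (fun q => ENNReal.ofReal (psR R F q s₂ ^ 4 * thF n F q s₂))
        + ENNReal.ofReal δ * ∫⁻ r in Icc s₁ s₂, Lam (n := n) F c χ r
          (fun q => ENNReal.ofReal
            (psR R F q r ^ 4 * (‖HH (n := n) F q r‖ ^ 2 * thF n F q r)))
      ≤ Lam (n := n) F c χ s₁ (fun q => ENNReal.ofReal (psR R F q s₁ ^ 4 * thF n F q s₁))
        + ENNReal.ofReal (C₁ * a * (s₂ - s₁))

/-- CS (hLT)(hEB)(hI4). Finiteness and Cauchy-Schwarz.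

Proof. Finite: `ψ⁴θ ≤ B 1_{‖F‖≤R}` with `B = sup θ` on the compact set. For real `λ > 0`, pointwise
`2ψ⁴θ ≤ λ 1_{‖F‖≤R} + λ⁻¹ ψ⁴|H|²θ` (`ψ ≤ 1`, `θ² ≤ |H|²θ`, AM-GM), so `2E ≤ λa + λ⁻¹D` by monotonicity
and additivity of `Lam` (measurability on the targets: LT or continuity). If `D = ∞` and `a > 0`, or
`E = 0`: trivial; otherwise let `λ = √(D/a)` (if `a = 0` or `D = 0` let `λ → ∞` resp. `λ → 0`: `E = 0`). -/
def StCS : Prop := ∀ (n N : ℕ) (M : Type) [TopologicalSpace M] [T2Space M]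
    [ChartedSpace (EE n) M] [IsManifold (𝓡 n) ∞ M] (F : M → ℝ → EE N), IsMCF (n := n) F →
    ∀ (c : ℕ → M) (χ : ℕ → M → ℝ), PU n c χ → ∀ (R t a : ℝ), 0 < R → t < 0 → 0 < a →
    IsCompact {q : M | ‖F q t‖ ≤ R} →
    Lam (n := n) F c χ t (indicator {q : M | ‖F q t‖ ≤ R} 1) ≤ ENNReal.ofReal a →
    (∀ q : M, 0 ≤ thF n F q t ∧ thF n F q t ≤ ‖HH (n := n) F q t‖ ^ 2) →
    Lam (n := n) F c χ t (fun q => ENNReal.ofReal (psR R F q t ^ 4 * thF n F q t)) < ⊤ ∧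
    Lam (n := n) F c χ t (fun q => ENNReal.ofReal (psR R F q t ^ 4 * thF n F q t)) ^ 2
      ≤ ENNReal.ofReal a * Lam (n := n) F c χ t
        (fun q => ENNReal.ofReal (psR R F q t ^ 4 * (‖HH (n := n) F q t‖ ^ 2 * thF n F q t)))

/-- ZE (hEB)(hI3)(hV1 or hSM). If the energy vanishes then `θ = 0` inside the ball.

Proof. Every term of `Lam` is `0`: `χ_i ψ⁴θσ = 0` a.e. on the target of the chart at `c i`, hence
everywhere on it (continuous, open set). Choose `i` with `χ_i(q) > 0` (sum = 1); `q ∈ source`, `σ > 0`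
(V1, I3), `ψ > 0`, so `θ(q) = 0`. -/
def StZE : Prop := ∀ (n N : ℕ) (M : Type) [TopologicalSpace M] [ChartedSpace (EE n) M]
    [IsManifold (𝓡 n) ∞ M] (F : M → ℝ → EE N), IsMCF (n := n) F → ∀ (c : ℕ → M)
    (χ : ℕ → M → ℝ), PU n c χ → ∀ (R t : ℝ), 0 < R → t < 0 →
    (∀ q : M, 0 ≤ thF n F q t) →
    Lam (n := n) F c χ t (fun q => ENNReal.ofReal (psR R F q t ^ 4 * thF n F q t)) = 0 →
    ∀ q : M, ‖F q t‖ < R → thF n F q t = 0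

/-! ### Real analysis -/

/-- RA1. A solution of `e' ≤ -δ d + C/R²`, `e² ≤ C R² d`, defined for all negative times, is bounded
by a constant depending only on `C` and `δ`.

Proof. `B = ofReal (4C/√δ)`. Suppose `e t₁ ≥ m₀` with a real `m₀ > 4C/√δ` (`e` finite). Write
`a(τ) = (e (t₁ - R²τ)).toReal`, `τ ≥ 0`. For `0 ≤ τ ≤ τ'`: (1) `a(τ') ≥ a(τ) - C(τ'-τ)`; (2) if `a ≥ m` on
`[τ,τ']` then `d ≥ m²/(CR²)` there and `a(τ') ≥ a(τ) + ((δ/C)m² - C)(τ'-τ)` (lower bound of the lower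
integral of `d` by a constant; no measurability needed). Claim: `a(τ) ≥ m`, `m ≥ m₀` implies
`a(τ + 8C/(δm)) ≥ 2m`: put `h = 8C/(δm) ≤ m/(2C)` (since `m² ≥ 16C²/δ`); by (1) `a ≥ m/2` on `[τ,τ+h]`, so by
(2) `a(τ+h) ≥ m + ((δ/(4C))m² - C)h ≥ m + (δ/(8C))m²h = 2m`. Iterating, `a(τ_k) ≥ 2^k m₀` with
`τ_k ≤ 16C/(δm₀) =: τ_∞`, and by (1) `a(τ_∞) ≥ 2^k m₀ - Cτ_∞` for all `k`, a contradiction. -/
def StRA1 : Prop := ∀ (C δ : ℝ), 0 < C → 0 < δ → ∃ B : ℝ, 0 < B ∧ ∀ (e d : ℝ → ℝ≥0∞) (R : ℝ),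
    0 < R → (∀ t < 0, e t < ⊤) →
    (∀ s₁ s₂ : ℝ, s₁ ≤ s₂ → s₂ < 0 → e s₂ + ENNReal.ofReal δ * ∫⁻ r in Icc s₁ s₂, d r
      ≤ e s₁ + ENNReal.ofReal (C * (s₂ - s₁) / R ^ 2)) →
    (∀ t < 0, e t ^ 2 ≤ ENNReal.ofReal (C * R ^ 2) * d t) →
    ∀ t < 0, e t ≤ ENNReal.ofReal B

/-- RA2 (hRA1). Such a family, monotone in `R`, vanishes.

Proof. `B` from RA1. (i) `δ∫⁻_{Icc s₁ s₂} d R ≤ B + C(s₂-s₁)/R²`. (ii) For `Λ ≥ 1`, `η > 0`, `T₁ > 0` there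
is `s ≤ -T₁` with `e (Λ√(-s)) s ≤ η`: otherwise for all `s ∈ [-T₂,-T₁]`, `R = Λ√T₂`:
`d R s ≥ d (Λ√(-s)) s ≥ η²/(CΛ²(-s))`, so by (i) `δ (η²/(CΛ²)) log(T₂/T₁) ≤ B + C/Λ²` for all `T₂ > T₁`,
a contradiction. (To avoid logarithms: split `[-2^k T₁, -T₁]` dyadically, each piece contributes at
least `δη²/(2CΛ²)`.) (iii) Given `R, t`: take `T₁` with `T₁ ≥ -t`, `T₁ ≥ R²`, and `s` from (ii); then
`e R t ≤ e (Λ√(-s)) t ≤ e (Λ√(-s)) s + C(t-s)/(Λ²(-s)) ≤ η + C/Λ²`. Let `η → 0`, `Λ → ∞`. -/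
def StRA2 : Prop := ∀ (C δ : ℝ), 0 < C → 0 < δ → ∀ e d : ℝ → ℝ → ℝ≥0∞,
    (∀ R t : ℝ, 0 < R → t < 0 → e R t < ⊤) →
    (∀ R R' t : ℝ, 0 < R → R ≤ R' → t < 0 → e R t ≤ e R' t ∧ d R t ≤ d R' t) →
    (∀ R s₁ s₂ : ℝ, 0 < R → s₁ ≤ s₂ → s₂ < 0 →
      e R s₂ + ENNReal.ofReal δ * ∫⁻ r in Icc s₁ s₂, d R r
        ≤ e R s₁ + ENNReal.ofReal (C * (s₂ - s₁) / R ^ 2)) →
    (∀ R t : ℝ, 0 < R → t < 0 → e R t ^ 2 ≤ ENNReal.ofReal (C * R ^ 2) * d R t) →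
    ∀ R t : ℝ, 0 < R → t < 0 → e R t = 0

/-! ### Conclusion -/

/-- FN (hSMP)(hPL)(hFL)(hPO). If `Â = 0` everywhere then the flow is of codimension one.

Proof. Copy of `Helper63.PI.hMAINR` (file Pool/Agent/Helper63/PI/M_MAINR.lean) from the line
`have hS := hSMP ..` on, with `1/n + zn n` replaced by `c`. -/
def StFN : Prop := ∀ (n N : ℕ), 2 ≤ n → n + 1 ≤ N → ∀ (M : Type)
    [TopologicalSpace M] [T2Space M] [ConnectedSpace M] [ChartedSpace (EE n) M]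
    [IsManifold (𝓡 n) ∞ M] (F : M → ℝ → EE N), IsMCF (n := n) F → ∀ c : ℝ, 0 ≤ c →
    c ≤ 3 / ((n : ℝ) + 2) → c ≤ 1 → Pinched n c F →
    (∀ (p : M) (t : ℝ), t < 0 →
      AA (n := n) F p t * ‖HH (n := n) F p t‖ ^ 2 = ZF (n := n) F p t) →
    CodimOne n F

/-- TOP (hEP)(hEQ)(hMA)(hEG)(hCS)(hAG)(hZE)(hRA2)(hFN)(hV5)(hDFL)(hNI)(hDA2)(hPO). The theorem.

Proof. As `Helper35.PI.All.main`: properness at each time (DFL), multiplicity bounds (DA2), RProper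
(NI); `c, χ` from V5 (`M` nonempty). `c₀ = (15+√6)/24 - ε`. EP gives `μ, δ, C` and `0 ≤ θ ≤ |H|²`; for
`R > 0`, `t < 0` the field `X = ψ⁴ VF μ F t` is `C¹` (EQ, MA), vanishes where `‖F‖ > R`, is orthogonal
to `H` (MA). AG: `CA`. EG with `C₁ = C/R⁴`, `a = CA R²` (`C₁a = C·CA/R²`), CS with the same `a`. Apply RA2
with `e R t = Lam t (ψ_R⁴θ)`, `d R t = Lam t (ψ_R⁴|H|²θ)`, the constant `max(C·CA, CA)`, monotone because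
`psR R ≤ psR R'` for `R ≤ R'` (`Lam` is monotone). So `e = 0`, and ZE (with `R > ‖F q t‖`) gives
`θ = 0`, i.e. `2AA = |H|²`. PO: `|H|⁴ ≤ 2 ZF ≤ 2 AA |H|² = |H|⁴`, so `AA |H|² = ZF`. FN with
`c = (15+√6)/24 ≤ 3/4` (`√6 ≤ 3`). -/
def StTOP : Prop := ForcesCodimOne 2 ((15 + Real.sqrt 6) / 24)

end Helper35.PI2
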