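import Mathlib
import Pool.Agent.Helper35.PI2.St

/-!
Module CS of project PI2.
-/

namespace Helper35.PI2

open Helper35.PI
open scoped ContDiff Manifold Topology ENNReal BigOperators
open MeasureTheory Set Filter

/-- from the family of inequalities `2E ≤ λ a + λ⁻¹ D` to `E² ≤ a D` -/
theorem cs_aux (E D : ℝ≥0∞) (a : ℝ) (ha : 0 < a) (hE : E < ⊤)
    (h : ∀ lam : ℝ, 0 < lam → 2 * E ≤ ENNReal.ofReal (lam * a) + ENNReal.ofReal (1 / lam) * D) :
    E ^ 2 ≤ ENNReal.ofReal a * D := by
  rcases eq_or_ne D ⊤ with hD | hD
  · rw [hD, ENNReal.mul_top]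
    · exact le_top
    · simp [ha]
  · lift D to NNReal using hD
    lift E to NNReal using hE.ne
    set E' : ℝ := (E : ℝ) with hE'
    set D' : ℝ := (D : ℝ) with hD'
    have hE0 : 0 ≤ E' := E.2
    have hD0 : 0 ≤ D' := D.2
    have hr : ∀ lam : ℝ, 0 < lam → 2 * E' ≤ lam * a + 1 / lam * D' := by
      intro lam hl
      have h1 := h lam hl
      have e1 : (2 : ℝ≥0∞) * (E : ℝ≥0∞) = ENNReal.ofReal (2 * E') := by
        rw [ENNReal.ofReal_mul (by norm_num), hE', ENNReal.ofReal_coe_nnreal]
        norm_num
      have e2 : ENNReal.ofReal (1 / lam) * (D : ℝ≥0∞) = ENNReal.ofReal (1 / lam * D') := by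
        rw [ENNReal.ofReal_mul (by positivity), hD', ENNReal.ofReal_coe_nnreal]
      rw [e1, e2, ← ENNReal.ofReal_add (by positivity) (by positivity)] at h1
      exact (ENNReal.ofReal_le_ofReal_iff (by positivity)).1 h1
    have hfin : E' ^ 2 ≤ a * D' := by
      rcases hD0.eq_or_lt with h0 | h0
      · -- D = 0
        have hE00 : E' ≤ 0 := by
          by_contra hpos
          push Not at hpos
          have := hr (E' / a) (by positivity)
          rw [← h0] at this
          have e : E' / a * a = E' := by field_simp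
          rw [e] at this
          linarith
        have : E' = 0 := le_antisymm hE00 hE0
        rw [this, ← h0]
        norm_num
      · have hs : 0 < Real.sqrt (D' / a) := Real.sqrt_pos.2 (by positivity)
        have h2 := hr _ hs
        set w := Real.sqrt (D' / a) with hw
        have hw2 : w ^ 2 = D' / a := Real.sq_sqrt (by positivity)
        have hD2 : D' = w ^ 2 * a := by rw [hw2]; field_simp
        have h3 : 1 / w * D' = w * a := by
          rw [hD2]; field_simp
        rw [h3] at h2
        have h4 : E' ≤ w * a := by linarith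
        have : E' ^ 2 ≤ (w * a) ^ 2 := by gcongr
        rw [hD2]
        nlinarith
    have e3 : (E : ℝ≥0∞) ^ 2 = ENNReal.ofReal (E' ^ 2) := by
      rw [ENNReal.ofReal_pow hE0, hE', ENNReal.ofReal_coe_nnreal]
    have e4 : ENNReal.ofReal a * (D : ℝ≥0∞) = ENNReal.ofReal (a * D') := by
      rw [ENNReal.ofReal_mul ha.le, hD', ENNReal.ofReal_coe_nnreal]
    rw [e3, e4]
    exact ENNReal.ofReal_le_ofReal hfin

theorem hCS (hEB : StEB) (hI4 : StI4) : StCS := by
  intro n N M _ _ _ _ F hF c χ hPU R t a hR ht ha hcpt harea hθ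
  obtain ⟨-, hθc, hψc, hpt⟩ := hEB n N M F hF R hR
  obtain ⟨hFc, hHc, -, -⟩ := hI4 n N M F hF
  have hslice : ∀ {Y : Type} [TopologicalSpace Y] (g : M → ℝ → Y),
      ContinuousOn (fun z : M × ℝ => g z.1 z.2) (univ ×ˢ Iio 0) →
      Continuous (fun q => g q t) := by
    intro Y _ g hg
    rw [← continuousOn_univ]
    exact hg.comp (f := fun q : M => (q, t)) (by fun_prop) (fun q _ => ⟨mem_univ _, ht⟩)
  have cθ : Continuous (fun q => thF n F q t) := hslice (fun q t => thF n F q t) hθc
  have cψ : Continuous (fun q => psR R F q t) := hslice (fun q t => psR R F q t) hψc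
  have cF : Continuous (fun q => F q t) := hslice (fun q t => F q t) hFc
  have cH : Continuous (fun q => HH (n := n) F q t) := hslice (fun q t => HH (n := n) F q t) hHc
  set B : Set M := {q : M | ‖F q t‖ ≤ R} with hB
  have hBcl : IsClosed B := isClosed_le cF.norm continuous_const
  have hψ0 : ∀ q, q ∉ B → psR R F q t = 0 := by
    intro q hq
    have hlt : R < ‖F q t‖ := by
      simpa [hB] using hq
    unfold psR
    apply max_eq_left
    have : 1 ≤ ‖F q t‖ ^ 2 / R ^ 2 := by
      rw [le_div_iff₀ (by positivity)]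
      nlinarith [norm_nonneg (F q t)]
    linarith
  have hψ1 : ∀ q, 0 ≤ psR R F q t ∧ psR R F q t ≤ 1 := by
    intro q
    refine ⟨le_max_left _ _, ?_⟩
    unfold psR
    apply max_le (by norm_num)
    have : 0 ≤ ‖F q t‖ ^ 2 / R ^ 2 := by positivity
    linarith
  have hψ4 : ∀ q, psR R F q t ^ 4 ≤ 1 := fun q => pow_le_one₀ (hψ1 q).1 (hψ1 q).2
  -- monotonicity and linearity of `Lam`
  have hmono : ∀ g h : M → ℝ≥0∞, (∀ q, g q ≤ h q) →
      Lam (n := n) F c χ t g ≤ Lam (n := n) F c χ t h := by
    intro g h hgh
    unfold Lam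
    refine ENNReal.tsum_le_tsum fun i => lintegral_mono fun y => ?_
    gcongr
    exact hgh _
  have hsmul : ∀ (k : ℝ≥0∞) (g : M → ℝ≥0∞), k ≠ ⊤ →
      Lam (n := n) F c χ t (fun q => k * g q) = k * Lam (n := n) F c χ t g := by
    intro k g hk
    unfold Lam
    rw [← ENNReal.tsum_mul_left]
    congr 1
    funext i
    rw [← lintegral_const_mul' _ _ hk]
    congr 1
    funext y
    ring
  have hadd : ∀ (g h : M → ℝ≥0∞), (∀ i, AEMeasurable (fun y => g ((chartAt (EE n) (c i)).symm y))
      (volume.restrict (chartAt (EE n) (c i)).target)) →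
      Lam (n := n) F c χ t (fun q => g q + h q)
        = Lam (n := n) F c χ t g + Lam (n := n) F c χ t h := by
    intro g h hg
    unfold Lam
    rw [← ENNReal.tsum_add]
    congr 1
    funext i
    have hsymm : ContinuousOn (chartAt (EE n) (c i)).symm (chartAt (EE n) (c i)).target :=
      (chartAt (EE n) (c i)).continuousOn_symm
    have hTm : MeasurableSet (chartAt (EE n) (c i)).target :=
      (chartAt (EE n) (c i)).open_target.measurableSet
    have m1 : AEMeasurable (fun y => ENNReal.ofReal (χ i ((chartAt (EE n) (c i)).symm y)))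
        (volume.restrict (chartAt (EE n) (c i)).target) :=
      (((hPU.smooth i).continuous.comp_continuousOn hsymm).aemeasurable hTm).ennreal_ofReal
    have m2 : AEMeasurable (fun y => ENNReal.ofReal (sgm (loc (n := n) F (c i) t) y))
        (volume.restrict (chartAt (EE n) (c i)).target) := by
      obtain ⟨-, -, hσc⟩ := hpt (c i)
      have : ContinuousOn (fun y => sgm (loc (n := n) F (c i) t) y)
          (chartAt (EE n) (c i)).target :=
        hσc.comp (f := fun y => (y, t)) (by fun_prop) (fun y hy => ⟨hy, ht⟩)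
      exact (this.aemeasurable hTm).ennreal_ofReal
    refine Eq.trans ?_ (lintegral_add_left' ((m1.mul (hg i)).mul m2) _)
    refine lintegral_congr fun y => ?_
    simp only [Pi.mul_apply]
    ring
  -- finiteness
  have hfin : Lam (n := n) F c χ t
      (fun q => ENNReal.ofReal (psR R F q t ^ 4 * thF n F q t)) < ⊤ := by
    obtain ⟨K, hK⟩ := hcpt.exists_bound_of_continuousOn cθ.continuousOn
    have h1 : Lam (n := n) F c χ t (fun q => ENNReal.ofReal (psR R F q t ^ 4 * thF n F q t))
        ≤ Lam (n := n) F c χ t (fun q => ENNReal.ofReal (max K 0) * indicator B 1 q) := by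
      apply hmono
      intro q
      by_cases hq : q ∈ B
      · rw [indicator_of_mem hq, Pi.one_apply, mul_one]
        apply ENNReal.ofReal_le_ofReal
        have h2 := hK q hq
        rw [Real.norm_eq_abs] at h2
        have h3 := le_abs_self (thF n F q t)
        have h4 := (hθ q).1
        calc psR R F q t ^ 4 * thF n F q t ≤ 1 * thF n F q t := by
              gcongr
              exact hψ4 q
          _ ≤ max K 0 := by rw [one_mul]; exact le_trans (h3.trans h2) (le_max_left _ _)
      · rw [hψ0 q hq]
        simp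
    refine lt_of_le_of_lt h1 ?_
    rw [hsmul _ _ ENNReal.ofReal_ne_top]
    exact ENNReal.mul_lt_top ENNReal.ofReal_lt_top (lt_of_le_of_lt harea ENNReal.ofReal_lt_top)
  refine ⟨hfin, ?_⟩
  apply cs_aux _ _ a ha hfin
  intro lam hl
  have h1 : (2 : ℝ≥0∞) * Lam (n := n) F c χ t
        (fun q => ENNReal.ofReal (psR R F q t ^ 4 * thF n F q t))
      ≤ Lam (n := n) F c χ t (fun q => ENNReal.ofReal lam * indicator B 1 q
          + ENNReal.ofReal (1 / lam) * ENNReal.ofReal
            (psR R F q t ^ 4 * (‖HH (n := n) F q t‖ ^ 2 * thF n F q t))) := by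
    rw [← hsmul 2 _ (by norm_num)]
    apply hmono
    intro q
    by_cases hq : q ∈ B
    · rw [indicator_of_mem hq, Pi.one_apply, mul_one]
      have e0 : (2 : ℝ≥0∞) * ENNReal.ofReal (psR R F q t ^ 4 * thF n F q t)
          = ENNReal.ofReal (2 * (psR R F q t ^ 4 * thF n F q t)) := by
        rw [ENNReal.ofReal_mul (by norm_num : (0 : ℝ) ≤ 2)]
        congr 1
        norm_num
      have e00 : ENNReal.ofReal lam + ENNReal.ofReal (1 / lam) *
            ENNReal.ofReal (psR R F q t ^ 4 * (‖HH (n := n) F q t‖ ^ 2 * thF n F q t))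
          = ENNReal.ofReal (lam + 1 / lam *
            (psR R F q t ^ 4 * (‖HH (n := n) F q t‖ ^ 2 * thF n F q t))) := by
        have := (hθ q).1
        rw [ENNReal.ofReal_add hl.le (by positivity),
          ENNReal.ofReal_mul (by positivity : (0 : ℝ) ≤ 1 / lam)]
      rw [e0, e00]
      · apply ENNReal.ofReal_le_ofReal
        obtain ⟨h2, h3⟩ := hθ q
        have h4 := (hψ1 q).1
        have h5 := hψ4 q
        set p := psR R F q t ^ 4 with hp
        set th := thF n F q t with hth
        set y := ‖HH (n := n) F q t‖ ^ 2 with hy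
        have hp0 : 0 ≤ p := by positivity
        have k1 : 2 * th ≤ lam + 1 / lam * (th * th) := by
          have e : lam + 1 / lam * (th * th) - 2 * th = (lam - th) ^ 2 / lam := by
            field_simp
            ring
          have : 0 ≤ (lam - th) ^ 2 / lam := by positivity
          linarith
        have k2 : 1 / lam * (th * th) ≤ 1 / lam * (y * th) := by gcongr
        have k3 : p * (2 * th) ≤ p * (lam + 1 / lam * (y * th)) := by
          apply mul_le_mul_of_nonneg_left _ hp0
          linarith
        have k4 : p * lam ≤ lam := by nlinarith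
        calc 2 * (p * th) = p * (2 * th) := by ring
          _ ≤ p * (lam + 1 / lam * (y * th)) := k3
          _ = p * lam + 1 / lam * (p * (y * th)) := by ring
          _ ≤ lam + 1 / lam * (p * (y * th)) := by linarith
    · rw [hψ0 q hq]
      simp
  refine h1.trans ?_
  rw [hadd, hsmul _ _ ENNReal.ofReal_ne_top, hsmul _ _ ENNReal.ofReal_ne_top,
    ENNReal.ofReal_mul hl.le]
  · gcongr
  · intro i
    have hsymm : ContinuousOn (chartAt (EE n) (c i)).symm (chartAt (EE n) (c i)).target :=
      (chartAt (EE n) (c i)).continuousOn_symm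
    have hTo : IsOpen (chartAt (EE n) (c i)).target := (chartAt (EE n) (c i)).open_target
    have e1 : (fun y => ENNReal.ofReal lam * indicator B (1 : M → ℝ≥0∞)
          ((chartAt (EE n) (c i)).symm y))
        = fun y => ENNReal.ofReal lam *
          indicator ((chartAt (EE n) (c i)).symm ⁻¹' B) (1 : EE n → ℝ≥0∞) y := by
      funext y
      rfl
    rw [e1]
    have hmeas : MeasurableSet ((chartAt (EE n) (c i)).target \
        ((chartAt (EE n) (c i)).symm ⁻¹' B)) := by
      have : (chartAt (EE n) (c i)).target \ ((chartAt (EE n) (c i)).symm ⁻¹' B)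
          = (chartAt (EE n) (c i)).target ∩ ((chartAt (EE n) (c i)).symm ⁻¹' Bᶜ) := by
        ext y; simp
      rw [this]
      exact (hsymm.isOpen_inter_preimage hTo hBcl.isOpen_compl).measurableSet
    have hms : MeasurableSet ((chartAt (EE n) (c i)).target ∩
        ((chartAt (EE n) (c i)).symm ⁻¹' B)) := by
      have : (chartAt (EE n) (c i)).target ∩ ((chartAt (EE n) (c i)).symm ⁻¹' B)
          = (chartAt (EE n) (c i)).target \ ((chartAt (EE n) (c i)).target \
        ((chartAt (EE n) (c i)).symm ⁻¹' B)) := by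
        ext y; simp
      rw [this]
      exact hTo.measurableSet.diff hmeas
    refine AEMeasurable.const_mul ?_ _
    refine AEMeasurable.congr (f := indicator ((chartAt (EE n) (c i)).target ∩
        ((chartAt (EE n) (c i)).symm ⁻¹' B)) (1 : EE n → ℝ≥0∞)) ?_ ?_
    · exact (measurable_one.indicator hms).aemeasurable
    · filter_upwards [ae_restrict_mem hTo.measurableSet] with y hy
      by_cases h : y ∈ (chartAt (EE n) (c i)).symm ⁻¹' B
      · rw [indicator_of_mem (show y ∈ _ ∩ _ from ⟨hy, h⟩), indicator_of_mem h]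
      · rw [indicator_of_notMem (fun h' => h h'.2), indicator_of_notMem h]

end Helper35.PI2
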