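import Mathlib
import Pool.Agent.Helper35.PI2.St

/-!
Module FU of project PI2.
-/

namespace Helper35.PI2

open Helper35.PI
open scoped ContDiff Manifold Topology ENNReal BigOperators
open MeasureTheory Set Filter

theorem hFU : StFU := by
  intro n T K hT hK hKT χ hχ hχ0 t₀ t₁ ht b hb
  have hcont : ContinuousOn (fun z : EE n × ℝ => χ z.1 * b z.1 z.2) (K ×ˢ Icc t₀ t₁) := by
    apply ContinuousOn.mul
    · exact (hχ.mono hKT).comp continuousOn_fst (fun z hz => hz.1)
    · exact hb.mono (prod_mono hKT le_rfl)
  have hKm : MeasurableSet K := hK.measurableSet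
  -- slices
  have hslice : ∀ r ∈ Icc t₀ t₁, ContinuousOn (fun y => χ y * b y r) K := by
    intro r hr
    exact hcont.comp (f := fun y : EE n => (y, r)) (by fun_prop) (fun y hy => ⟨hy, hr⟩)
  have hslice2 : ∀ y ∈ K, ContinuousOn (fun r => χ y * b y r) (Icc t₀ t₁) := by
    intro y hy
    exact hcont.comp (f := fun r : ℝ => (y, r)) (by fun_prop) (fun r hr => ⟨hy, hr⟩)
  have hTK : ∀ g : EE n → ℝ, (∫ y in T, χ y * g y) = ∫ y in K, χ y * g y := by
    intro g
    refine setIntegral_eq_of_subset_of_forall_sdiff_eq_zero hT.measurableSet hKT ?_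
    intro y hy
    rw [hχ0 y hy.1 hy.2, zero_mul]
  have hintT : ∀ g : EE n → ℝ, IntegrableOn (fun y => χ y * g y) K →
      IntegrableOn (fun y => χ y * g y) T := by
    intro g hg
    refine hg.of_forall_sdiff_eq_zero hT.measurableSet ?_
    intro y hy
    rw [hχ0 y hy.1 hy.2, zero_mul]
  obtain ⟨B, hB⟩ := (hK.prod (isCompact_Icc (a := t₀) (b := t₁))).exists_bound_of_continuousOn hcont
  refine ⟨?_, ?_, ?_⟩
  · intro r hr
    exact hintT (fun y => b y r) ((hslice r hr).integrableOn_compact hK)
  · have e : (fun r => ∫ y in T, χ y * b y r) = fun r => ∫ y in K, χ y * b y r := by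
      funext r
      exact hTK (fun y => b y r)
    rw [e]
    refine continuousOn_of_dominated (bound := fun _ => B) ?_ ?_ ?_ ?_
    · intro r hr
      exact ((hslice r hr).integrableOn_compact hK).aestronglyMeasurable
    · intro r hr
      filter_upwards [ae_restrict_mem hKm] with y hy
      exact hB (y, r) ⟨hy, hr⟩
    · exact integrableOn_const hK.measure_lt_top.ne
    · filter_upwards [ae_restrict_mem hKm] with y hy
      exact hslice2 y hy
  · intro a ha hac
    have hac' : ∀ r ∈ Icc t₀ t₁, IntegrableOn (fun y => χ y * a y r) K := by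
      intro r hr
      have h1 : ContinuousOn (fun y => χ y * a y r) K := by
        apply ContinuousOn.mul (hχ.mono hKT)
        exact hac.comp (f := fun y : EE n => (y, r)) (by fun_prop)
          (fun y hy => ⟨hKT hy, hr⟩)
      exact h1.integrableOn_compact hK
    rw [hTK (fun y => a y t₁), hTK (fun y => a y t₀)]
    rw [← integral_sub (hac' t₁ ⟨ht, le_rfl⟩) (hac' t₀ ⟨le_rfl, ht⟩)]
    have e1 : (∫ y in K, (χ y * a y t₁ - χ y * a y t₀))
        = ∫ y in K, ∫ r in Ioc t₀ t₁, χ y * b y r := by
      refine setIntegral_congr_fun hKm ?_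
      intro y hy
      have h1 : ∫ r in t₀..t₁, b y r = a y t₁ - a y t₀ := by
        refine intervalIntegral.integral_eq_sub_of_hasDerivAt ?_ ?_
        · intro r hr
          rw [uIcc_of_le ht] at hr
          exact ha y (hKT hy) r hr
        · refine ContinuousOn.intervalIntegrable ?_
          rw [uIcc_of_le ht]
          exact hb.comp (f := fun r : ℝ => (y, r)) (by fun_prop) (fun r hr => ⟨hKT hy, hr⟩)
      rw [intervalIntegral.integral_of_le ht] at h1
      change χ y * a y t₁ - χ y * a y t₀ = ∫ r in Ioc t₀ t₁, χ y * b y r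
      rw [integral_const_mul, h1]
      ring
    rw [e1]
    have e2 : (∫ r in t₀..t₁, ∫ y in T, χ y * b y r)
        = ∫ r in Ioc t₀ t₁, ∫ y in K, χ y * b y r := by
      rw [intervalIntegral.integral_of_le ht]
      refine setIntegral_congr_fun measurableSet_Ioc ?_
      intro r _
      exact hTK (fun y => b y r)
    rw [e2]
    apply integral_integral_swap
    rw [Measure.prod_restrict]
    have h3 : IntegrableOn (fun z : EE n × ℝ => χ z.1 * b z.1 z.2) (K ×ˢ Icc t₀ t₁)
        (volume.prod volume) := by
      exact hcont.integrableOn_compact (hK.prod isCompact_Icc)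
    exact h3.mono_set (prod_mono le_rfl Ioc_subset_Icc_self)

end Helper35.PI2
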