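import Mathlib
import Pool.Agent.Helper35.PI2.St

/-!
Module TOP of project PI2: assembly.
-/

namespace Helper35.PI2

open Helper35.PI
open scoped ContDiff Manifold Topology ENNReal BigOperators
open MeasureTheory Set Filter

theorem lam_mono {n N : ℕ} {M : Type} [TopologicalSpace M] [ChartedSpace (EE n) M]
    (F : M → ℝ → EE N) (c : ℕ → M) (χ : ℕ → M → ℝ) (t : ℝ) {g h : M → ℝ≥0∞}
    (hgh : ∀ q, g q ≤ h q) : Lam (n := n) F c χ t g ≤ Lam (n := n) F c χ t h := by
  unfold Lam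
  refine ENNReal.tsum_le_tsum fun i => lintegral_mono fun y => ?_
  gcongr
  exact hgh _

theorem psR_mono {N : ℕ} {M : Type} [TopologicalSpace M] (F : M → ℝ → EE N) (q : M) (t : ℝ)
    {R R' : ℝ} (hR : 0 < R) (hRR : R ≤ R') : psR R F q t ≤ psR R' F q t := by
  unfold psR
  apply max_le_max le_rfl
  have h : ‖F q t‖ ^ 2 / R' ^ 2 ≤ ‖F q t‖ ^ 2 / R ^ 2 := by
    apply div_le_div_of_nonneg_left (by positivity) (by positivity)
    gcongr
  linarith

theorem psR_nonneg {N : ℕ} {M : Type} [TopologicalSpace M] (F : M → ℝ → EE N) (q : M) (t R : ℝ) :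
    0 ≤ psR R F q t := le_max_left _ _

theorem sqrt6_lt : Real.sqrt 6 < 3 := by
  rw [Real.sqrt_lt' (by norm_num)]; norm_num

theorem hTOP (hEP : StEP) (hEQ : StEQ) (hMA : StMA) (hEG : StEG) (hCS : StCS) (hAG : StAG)
    (hZE : StZE) (hRA2 : StRA2) (hFN : StFN) (hV5 : StV5) (hDFL : StDFL) (hNI : StNI)
    (hDA2 : StDA2) (hPO : StPO) : StTOP := by
  intro N hN M _ _ _ _ _ _ F hF hP
  have hP0 := hP
  obtain ⟨ε, hε, hpin⟩ := hP
  have hn1 : 1 ≤ 2 := by norm_num
  have hmcf : IsMCF (n := 2) F := hF.mcf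
  have hcpt : ∀ t R : ℝ, t < 0 → IsCompact {q : M | ‖F q t‖ ≤ R} :=
    hDFL 2 N hn1 M F ⟨hF.mcf, hF.complete, hF.entropy, hF.growth⟩
  obtain ⟨Ce, hCe, hent⟩ := hF.entropy
  have har : ∀ R : ℝ, ∃ C : ℝ≥0∞, C ≠ ⊤ ∧ ∀ t < 0, ∫⁻ x in Metric.closedBall (0 : EE N) R,
      (((fun q => F q t) ⁻¹' {x}).encard : ℝ≥0∞) ∂μH[((2 : ℕ) : ℝ)] ≤ C := fun R =>
    hDA2 2 N M F R Ce hCe hent
  have hRP : RProper F := hNI 2 N hn1 M F hmcf hcpt har
  obtain ⟨c, χ, hPU⟩ := hV5 2 M
  have hs6 := sqrt6_lt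
  have hc₀ : (15 + Real.sqrt 6) / 24 - ε < (15 + Real.sqrt 6) / 24 := by linarith
  obtain ⟨μ, δ, C, hδ, hC, hEP'⟩ := hEP _ hc₀
  obtain ⟨hθ, hpt⟩ := hEP' N M F hmcf hpin
  obtain ⟨CA, hCA, harea⟩ := hAG 2 N M F hmcf hcpt ⟨Ce, hCe, hent⟩
  obtain ⟨hV1, hV2, hV3, -⟩ : (∀ t < 0, ContMDiff (𝓡 2) 𝓘(ℝ, EE N) 1 (VF 2 μ F t)) ∧
      (∀ t < 0, ∀ q, (inner ℝ (HH (n := 2) F q t) (VF 2 μ F t q) : ℝ) = 0) ∧
      (∀ t < 0, ∀ q, VF 2 μ F t q ∈ TS (n := 2) F q t) ∧ True :=
    ⟨fun t ht => (hMA 2 N M F hmcf μ t ht).1, fun t ht => (hMA 2 N M F hmcf μ t ht).2.1,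
      fun t ht => (hMA 2 N M F hmcf μ t ht).2.2.1, trivial⟩
  -- the energy inequality
  have hEn : ∀ R s₁ s₂ : ℝ, 0 < R → s₁ ≤ s₂ → s₂ < 0 →
      Lam (n := 2) F c χ s₂ (fun q => ENNReal.ofReal (psR R F q s₂ ^ 4 * thF 2 F q s₂))
        + ENNReal.ofReal δ * ∫⁻ r in Icc s₁ s₂, Lam (n := 2) F c χ r
          (fun q => ENNReal.ofReal
            (psR R F q r ^ 4 * (‖HH (n := 2) F q r‖ ^ 2 * thF 2 F q r)))
      ≤ Lam (n := 2) F c χ s₁ (fun q => ENNReal.ofReal (psR R F q s₁ ^ 4 * thF 2 F q s₁))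
        + ENNReal.ofReal (max (C * CA) CA * (s₂ - s₁) / R ^ 2) := by
    intro R s₁ s₂ hR h12 h2
    have h := hEG 2 N M F hmcf hRP hcpt c χ hPU R (C / R ^ 4) δ (CA * R ^ 2) hR (by positivity)
      hδ.le (by positivity) (fun t ht => harea c χ hPU t R ht hR)
      (fun q t ht => (hθ q t ht).1) ?_ s₁ s₂ h12 h2
    · refine h.trans ?_
      gcongr
      have e : C / R ^ 4 * (CA * R ^ 2) * (s₂ - s₁) = C * CA * (s₂ - s₁) / R ^ 2 := by
        field_simp
      rw [e]
      have h3 : 0 ≤ s₂ - s₁ := by linarith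
      have h4 : C * CA ≤ max (C * CA) CA := le_max_left _ _
      gcongr
    · intro t ht
      refine ⟨fun q => psR R F q t ^ 4 • VF 2 μ F t q, ?_, ?_, ?_, ?_⟩
      · exact (hEQ 2 N M F hmcf R t hR ht _ (hV1 t ht) (hV3 t ht)).1
      · intro q hq
        by_contra hlt
        push Not at hlt
        apply hq
        have h0 : psR R F q t = 0 := by
          unfold psR
          apply max_eq_left
          have : 1 ≤ ‖F q t‖ ^ 2 / R ^ 2 := by
            rw [le_div_iff₀ (by positivity)]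
            nlinarith [norm_nonneg (F q t)]
          linarith
        simp [h0]
      · intro q
        rw [inner_smul_right, hV2 t ht q, mul_zero]
      · intro q
        exact hpt R t q hR ht
  set K : ℝ := max (C * CA) CA with hK
  have hKpos : 0 < K := lt_of_lt_of_le hCA (le_max_right _ _)
  have hzero := hRA2 K δ hKpos hδ
    (fun R t => Lam (n := 2) F c χ t (fun q => ENNReal.ofReal (psR R F q t ^ 4 * thF 2 F q t)))
    (fun R t => Lam (n := 2) F c χ t (fun q => ENNReal.ofReal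
            (psR R F q t ^ 4 * (‖HH (n := 2) F q t‖ ^ 2 * thF 2 F q t))))
    (by
      intro R t hR ht
      exact (hCS 2 N M F hmcf c χ hPU R t (CA * R ^ 2) hR ht (by positivity) (hcpt t R ht)
        (harea c χ hPU t R ht hR) (fun q => hθ q t ht)).1)
    (by
      intro R R' t hR hRR ht
      constructor
      · apply lam_mono
        intro q
        apply ENNReal.ofReal_le_ofReal
        have h1 := psR_mono F q t hR hRR
        have h2 := psR_nonneg F q t R
        have h3 := (hθ q t ht).1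
        gcongr
      · apply lam_mono
        intro q
        apply ENNReal.ofReal_le_ofReal
        have h1 := psR_mono F q t hR hRR
        have h2 := psR_nonneg F q t R
        have h3 := (hθ q t ht).1
        gcongr)
    (by
      intro R s₁ s₂ hR h12 h2
      exact hEn R s₁ s₂ hR h12 h2)
    (by
      intro R t hR ht
      refine ((hCS 2 N M F hmcf c χ hPU R t (CA * R ^ 2) hR ht (by positivity) (hcpt t R ht)
        (harea c χ hPU t R ht hR) (fun q => hθ q t ht)).2).trans ?_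
      have : CA ≤ K := le_max_right _ _
      gcongr)
  have hth0 : ∀ (q : M) (t : ℝ), t < 0 → thF 2 F q t = 0 := by
    intro q t ht
    have hR : 0 < ‖F q t‖ + 1 := by positivity
    exact hZE 2 N M F hmcf c χ hPU (‖F q t‖ + 1) t hR ht (fun q => (hθ q t ht).1)
      (hzero (‖F q t‖ + 1) t hR ht) q (by linarith)
  refine hFN 2 N le_rfl hN M F hmcf ((15 + Real.sqrt 6) / 24) ?_ ?_ ?_ hP0 ?_
  · have := Real.sqrt_nonneg 6
    positivity
  · push_cast
    linarith
  · linarith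
  · intro p t ht
    have h0 := hth0 p t ht
    obtain ⟨h1, h2, h3, h4, h5, -⟩ := hPO 2 N hn1 M F hmcf p t ht
    unfold thF at h0
    push_cast at h3
    have e : ‖HH (n := 2) F p t‖ ^ 2 = 2 * AA (n := 2) F p t := by linarith
    rw [e] at h3 h4 ⊢
    nlinarith

end Helper35.PI2
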