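import Pool.Agent.Helper35.PI.All
import Pool.Agent.Helper35.PI2.St
import Pool.Agent.Helper71.PI2.M_NJ
import Pool.Agent.Helper98.PI2.M_GH
import Pool.Agent.Helper78.PI2.M_GX
import Pool.Agent.Helper6.PI2.M_GS
import Pool.Agent.Helper92.PI2.M_GV
import Pool.Agent.Helper16.PI2.M_IS
import Pool.Agent.Helper45.PI2.M_IB
import Pool.Agent.Helper12.PI2.M_MA
import Pool.Agent.Helper86.PI2.M_MT
import Pool.Agent.Helper15.PI2.M_MG
import Pool.Agent.Helper28.PI2.M_PE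
import Pool.Agent.Helper67.PI2.M_PR
import Pool.Agent.Helper2.PI2.M_PV
import Pool.Agent.Helper2.PI2.M_PW
import Pool.Agent.Helper76.PI2.M_EB
import Pool.Agent.Helper29.PI2.M_EQ
import Pool.Agent.Helper13.PI2.M_EP
import Pool.Agent.Helper79.PI2.M_LL
import Pool.Agent.Helper42.PI2.M_LT
import Pool.Agent.Helper84.PI2.M_EI
import Pool.Agent.Helper47.PI2.M_AG
import Pool.Agent.Helper35.PI2.M_FU
import Pool.Agent.Helper61.PI2.M_ET
import Pool.Agent.Helper93.PI2.M_LS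
import Pool.Agent.Helper36.PI2.M_CI
import Pool.Agent.Helper39.PI2.M_EG
import Pool.Agent.Helper35.PI2.M_CS
import Pool.Agent.Helper35.PI2.M_ZE
import Pool.Agent.Helper45.PI2.M_RA1
import Pool.Agent.Helper91.PI2.M_RA2
import Pool.Agent.Helper94.PI2.M_FN
import Pool.Agent.Helper35.PI2.M_TOP

/-!
Project PI2 (MP_b2fa09_gt): assembly of the modules.
-/

namespace Helper35.PI2.All

open Helper35.PI Helper35.PI.All

theorem tNJ : StNJ := Helper71.PI2.hNJ tNR tSM tG0 tG1 tG2 tJA tJB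
theorem tGH : StGH := Helper98.PI2.hGH tNJ tNR tSM tG0 tG1 tG2 tJA tJB
theorem tGX : StGX := Helper78.PI2.hGX tGH tG0 tG1
theorem tGS : StGS := Helper6.PI2.hGS tGH tG0 tG1 tJB
theorem tGV : StGV := Helper92.PI2.hGV tGX tGS tG0 tG1 tG2 tG7 tG8 tSM tJA
theorem tIS : StIS := Helper16.PI2.hIS tSM tFR tNR
theorem tIB : StIB := Helper45.PI2.hIB tNR tSM tI1 tIS
theorem tMA : StMA := Helper12.PI2.hMA tIS tIB tI2 tI3
theorem tMT : StMT := Helper86.PI2.hMT tNR tSM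
theorem tMG : StMG := Helper15.PI2.hMG tGV tMA tMT tIB tC1 Helper95.PI.hC2 tC3 tSM tI2 tI3 tG1 tG7 tG8
theorem tPE : StPE := Helper28.PI2.hPE
theorem tPR : StPR := Helper67.PI2.hPR tPE
theorem tPV : StPV := Helper2.PI2.hPV
theorem tPW : StPW := Helper2.PI2.hPW tPE tPR tPV Helper13.PI.hT3
theorem tEB : StEB := Helper76.PI2.hEB tV1 tSM tI2 tI3 tI4
theorem tEQ : StEQ := Helper29.PI2.hEQ tI2 tI3 tNR tFR
theorem tEP : StEP := Helper13.PI2.hEP tMG tMA tEQ tPW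
theorem tLL : StLL := Helper79.PI2.hLL
theorem tLT : StLT := Helper42.PI2.hLT tEB tI4
theorem tEI : StEI := Helper84.PI2.hEI tV6 tLT tEB tI4
theorem tAG : StAG := Helper47.PI2.hAG tV8
theorem tET : StET := Helper61.PI2.hET tEI tLL tLT hFU tEB tI4
theorem tLS : StLS := Helper93.PI2.hLS tEB tI2
theorem tCI : StCI := Helper36.PI2.hCI
theorem tEG : StEG := Helper39.PI2.hEG tET tLS tCI tEB
theorem tCS : StCS := hCS tEB tI4
theorem tZE : StZE := hZE tEB tI2 tI3 tV1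
theorem tRA2 : StRA2 := Helper91.PI2.hRA2 Helper45.PI2.hRA1
theorem tFN : StFN := Helper94.PI2.hFN tSMP tPL tFL tPO
theorem tTOP : StTOP := hTOP tEP tEQ tMA tEG tCS tAG tZE tRA2 tFN tV5 tDFL tNI tDA2 tPO

end Helper35.PI2.All
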